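import Mathlib.Topology.Sheaves.Presheaf
import Mathlib.Tactic.Monotonicity.Lemmas
import Mathlib.Data.List.GetD
import Mathlib.Analysis.SpecialFunctions.Trigonometric.Series
import Mathlib.NumberTheory.Harmonic.EulerMascheroni
import Mathlib.Analysis.SpecialFunctions.Stirling
import Mathlib.Probability.Notation
import Mathlib.RingTheory.PiTensorProduct
import Mathlib.Probability.Independence.Basic
import Mathlib.NumberTheory.Harmonic.Bounds
import Mathlib.Tactic.Algebra.Basic

-- ======== part 0: formerly Pool.Agent.MP_40890c_pr.Ev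
section MrgPart0

/-!
Averages over sign sequences, the smoothing estimate and the bounded differences inequality.
-/

open Finset

namespace Pool.Agent.MP_40890c_pr

def IsSg (l : List ℤ) : Prop := ∀ x ∈ l, x = 1 ∨ x = -1

theorem isSg_nil : IsSg [] := by simp [IsSg]

theorem isSg_cons {s : ℤ} {l : List ℤ} (hs : s = 1 ∨ s = -1) (hl : IsSg l) : IsSg (s :: l) := by
  intro x hx
  rcases List.mem_cons.1 hx with rfl | hx
  exacts [hs, hl x hx]

/-- The average of `f` over all sign sequences of length `N`. -/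
noncomputable def ev : ℕ → (List ℤ → ℝ) → ℝ
  | 0, f => f []
  | N + 1, f => (ev N (fun l => f (1 :: l)) + ev N (fun l => f (-1 :: l))) / 2

theorem ev_zero (f : List ℤ → ℝ) : ev 0 f = f [] := rfl

theorem ev_succ (N : ℕ) (f : List ℤ → ℝ) :
    ev (N + 1) f = (ev N (fun l => f (1 :: l)) + ev N (fun l => f (-1 :: l))) / 2 := rfl

theorem ev_mono {N : ℕ} {f g : List ℤ → ℝ} (h : ∀ l, l.length = N → IsSg l → f l ≤ g l) :
    ev N f ≤ ev N g := by
  induction N generalizing f g with
  | zero => exact h [] rfl isSg_nil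
  | succ N ih =>
    rw [ev_succ, ev_succ]
    have h1 := ih (f := fun l => f (1 :: l)) (g := fun l => g (1 :: l)) fun l hl hs =>
      h _ (by simp [hl]) (isSg_cons (Or.inl rfl) hs)
    have h2 := ih (f := fun l => f (-1 :: l)) (g := fun l => g (-1 :: l)) fun l hl hs =>
      h _ (by simp [hl]) (isSg_cons (Or.inr rfl) hs)
    linarith

theorem ev_congr {N : ℕ} {f g : List ℤ → ℝ} (h : ∀ l, l.length = N → IsSg l → f l = g l) :
    ev N f = ev N g :=
  le_antisymm (ev_mono fun l a b => (h l a b).le) (ev_mono fun l a b => (h l a b).ge)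

theorem ev_const (N : ℕ) (c : ℝ) : ev N (fun _ => c) = c := by
  induction N with
  | zero => rfl
  | succ N ih => rw [ev_succ, ih]; ring

theorem ev_add (N : ℕ) (f g : List ℤ → ℝ) : ev N (fun l => f l + g l) = ev N f + ev N g := by
  induction N generalizing f g with
  | zero => rfl
  | succ N ih => simp only [ev_succ, ih]; ring

theorem ev_const_mul (N : ℕ) (c : ℝ) (f : List ℤ → ℝ) : ev N (fun l => c * f l) = c * ev N f := by
  induction N generalizing f with
  | zero => rfl
  | succ N ih => simp only [ev_succ, ih]; ring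

theorem ev_mul_const (N : ℕ) (c : ℝ) (f : List ℤ → ℝ) : ev N (fun l => f l * c) = ev N f * c := by
  simp only [mul_comm _ c, ev_const_mul]

theorem ev_sub (N : ℕ) (f g : List ℤ → ℝ) : ev N (fun l => f l - g l) = ev N f - ev N g := by
  induction N generalizing f g with
  | zero => rfl
  | succ N ih => simp only [ev_succ, ih]; ring

theorem ev_sum {ι : Type*} (N : ℕ) (s : Finset ι) (f : ι → List ℤ → ℝ) :
    ev N (fun l => ∑ i ∈ s, f i l) = ∑ i ∈ s, ev N (f i) := by
  classical
  induction s using Finset.induction_on with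
  | empty => simp [ev_const]
  | insert a s ha ih => simp only [Finset.sum_insert ha, ev_add, ih]

theorem ev_nonneg {N : ℕ} {f : List ℤ → ℝ} (h : ∀ l, l.length = N → IsSg l → 0 ≤ f l) :
    0 ≤ ev N f := by
  have := ev_mono (N := N) (f := fun _ => 0) (g := f) h
  rwa [ev_const] at this

theorem ev_le_const {N : ℕ} {f : List ℤ → ℝ} {c : ℝ} (h : ∀ l, l.length = N → IsSg l → f l ≤ c) :
    ev N f ≤ c := by
  have := ev_mono (N := N) (f := f) (g := fun _ => c) h
  rwa [ev_const] at this

theorem abs_ev_le {N : ℕ} {f g : List ℤ → ℝ} (h : ∀ l, l.length = N → IsSg l → |f l| ≤ g l) :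
    |ev N f| ≤ ev N g := by
  rw [abs_le]
  constructor
  · have := ev_mono (N := N) (f := fun l => (-1) * g l) (g := f) fun l a b => by
      have := (abs_le.1 (h l a b)).1
      linarith
    rw [ev_const_mul] at this
    linarith
  · exact ev_mono fun l a b => (abs_le.1 (h l a b)).2

theorem ev_append (m n : ℕ) (f : List ℤ → ℝ) :
    ev (m + n) f = ev m (fun l => ev n (fun l' => f (l ++ l'))) := by
  induction m generalizing f with
  | zero => simp [ev_zero]
  | succ m ih =>
    rw [Nat.succ_add, ev_succ, ev_succ, ih, ih]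
    simp

theorem ev_take (m n : ℕ) (f : List ℤ → ℝ) : ev (m + n) (fun l => f (l.take m)) = ev m f := by
  rw [ev_append]
  refine ev_congr fun l hl _ => ?_
  have : ∀ l' : List ℤ, (l ++ l').take m = l := fun l' => by rw [← hl]; simp
  simp only [this, ev_const]

/-- The heat semigroup of simple random walk. -/
noncomputable def heat (m : ℕ) (f : ℤ → ℝ) (x : ℤ) : ℝ := ev m (fun l => f (x + l.sum))

theorem heat_zero (f : ℤ → ℝ) (x : ℤ) : heat 0 f x = f x := by simp [heat, ev_zero]

theorem heat_succ (m : ℕ) (f : ℤ → ℝ) (x : ℤ) :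
    heat (m + 1) f x = (heat m f (x + 1) + heat m f (x - 1)) / 2 := by
  simp only [heat, ev_succ, List.sum_cons, add_assoc, sub_eq_add_neg]

theorem heat_add (m k : ℕ) (f : ℤ → ℝ) (x : ℤ) : heat (m + k) f x = heat m (heat k f) x := by
  simp only [heat, ev_append, List.sum_append, add_assoc]

theorem heat_grad (m : ℕ) (f : ℤ → ℝ) (x : ℤ) :
    heat m (fun y => f (y + 1) - f (y - 1)) x = heat m f (x + 1) - heat m f (x - 1) := by
  simp only [heat, ev_sub]
  congr 2 <;> funext l <;> congr 1 <;> ring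

theorem stein (m : ℕ) (f : ℤ → ℝ) (x : ℤ) :
    ev (m + 1) (fun l => f (x + l.sum) * (l.sum : ℝ)) =
      (m + 1) * (heat m f (x + 1) - heat m f (x - 1)) / 2 := by
  induction m generalizing x with
  | zero => simp [ev_succ, ev_zero, heat_zero, sub_eq_add_neg]
  | succ m ih =>
    rw [ev_succ]
    have h1 : ev (m + 1) (fun l => f (x + (1 :: l).sum) * ((1 :: l).sum : ℝ)) =
        ev (m + 1) (fun l => f (x + 1 + l.sum) * (l.sum : ℝ)) + heat (m + 1) f (x + 1) := by
      rw [heat, ← ev_add]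
      congr 1; funext l
      simp only [List.sum_cons, add_assoc]; push_cast; ring
    have h2 : ev (m + 1) (fun l => f (x + (-1 :: l).sum) * ((-1 :: l).sum : ℝ)) =
        ev (m + 1) (fun l => f (x - 1 + l.sum) * (l.sum : ℝ)) - heat (m + 1) f (x - 1) := by
      rw [heat, ← ev_sub]
      congr 1; funext l
      simp only [List.sum_cons, add_assoc, sub_eq_add_neg]; push_cast; ring
    rw [h1, h2, ih, ih, heat_succ, heat_succ]
    simp only [add_sub_cancel_right, sub_add_cancel]
    push_cast; ring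

theorem ev_sq (m : ℕ) (x : ℤ) : ev m (fun l => ((x + l.sum : ℤ) : ℝ) ^ 2) = (x : ℝ) ^ 2 + m := by
  induction m generalizing x with
  | zero => simp [ev_zero]
  | succ m ih =>
    rw [ev_succ]
    have h1 := ih (x + 1)
    have h2 := ih (x - 1)
    simp only [List.sum_cons, add_assoc, sub_eq_add_neg] at *
    rw [h1, h2]; push_cast; ring

theorem ev_abs_le (m : ℕ) : ev (m + 1) (fun l => |(l.sum : ℝ)|) ≤ √(m + 1) := by
  have hpos : (0 : ℝ) < √(m + 1) := Real.sqrt_pos.2 (by positivity)
  have hsq : √((m : ℝ) + 1) ^ 2 = m + 1 := Real.sq_sqrt (by positivity)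
  have h1 := ev_mono (N := m + 1) (f := fun l => |(l.sum : ℝ)|)
    (g := fun l => (1 / (2 * √(m + 1))) * (((0 : ℤ) + l.sum : ℤ) : ℝ) ^ 2 + √(m + 1) / 2)
    (fun l _ _ => by
      simp only [zero_add]
      rw [← sq_abs]
      set t := |(l.sum : ℝ)|
      set s := √((m : ℝ) + 1)
      have : 1 / (2 * s) * t ^ 2 + s / 2 - t = (t - s) ^ 2 / (2 * s) := by field_simp; ring
      have h2 : 0 ≤ (t - s) ^ 2 / (2 * s) := by positivity
      linarith)
  rw [ev_add, ev_const_mul, ev_const, ev_sq] at h1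
  refine h1.trans (le_of_eq ?_)
  push_cast
  set s := √((m : ℝ) + 1)
  rw [← hsq]; field_simp; ring

theorem smoothing (m : ℕ) {f : ℤ → ℝ} {M : ℝ} (hM : ∀ y, |f y| ≤ M) (x : ℤ) :
    |heat m f (x + 1) - heat m f (x - 1)| ≤ 2 * M / √(m + 1) := by
  have hM0 : 0 ≤ M := (abs_nonneg _).trans (hM 0)
  have hpos : (0 : ℝ) < √(m + 1) := Real.sqrt_pos.2 (by positivity)
  have hsq : √((m : ℝ) + 1) ^ 2 = m + 1 := Real.sq_sqrt (by positivity)
  have h1 := abs_ev_le (N := m + 1) (f := fun l => f (x + l.sum) * (l.sum : ℝ))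
    (g := fun l => M * |(l.sum : ℝ)|) (fun l _ _ => by
      rw [abs_mul]; exact mul_le_mul_of_nonneg_right (hM _) (abs_nonneg _))
  rw [stein, ev_const_mul] at h1
  have h2 := mul_le_mul_of_nonneg_left (ev_abs_le m) hM0
  have h3 := h1.trans h2
  rw [abs_div, abs_mul, abs_of_pos (by positivity : (0 : ℝ) < m + 1), abs_two] at h3
  set s := √((m : ℝ) + 1)
  rw [← hsq] at h3
  rw [le_div_iff₀ hpos]
  nlinarith [abs_nonneg (heat m f (x + 1) - heat m f (x - 1))]

/-- The bounded differences inequality, in the form of a bound for the exponential moment. -/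
theorem mcdiarmid (N : ℕ) (c : ℕ → ℝ) (f : List ℤ → ℝ) (t : ℝ)
    (h : ∀ l1 l2 : List ℤ, |f (l1 ++ 1 :: l2) - f (l1 ++ -1 :: l2)| ≤ 2 * c l1.length) :
    ev N (fun l => Real.exp (t * (f l - ev N f))) ≤
      Real.exp (t ^ 2 / 2 * ∑ i ∈ range N, c i ^ 2) := by
  induction N generalizing f c with
  | zero => simp [ev_zero]
  | succ N ih =>
    have hp := ih (fun i => c (i + 1)) (fun l => f (1 :: l)) fun l1 l2 => h (1 :: l1) l2
    have hm := ih (fun i => c (i + 1)) (fun l => f (-1 :: l)) fun l1 l2 => h (-1 :: l1) l2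
    set mp := ev N (fun l => f (1 :: l)) with hmp
    set mm := ev N (fun l => f (-1 :: l)) with hmm
    have hd : |mp - mm| ≤ 2 * c 0 := by
      rw [hmp, hmm, ← ev_sub]
      have := abs_ev_le (N := N) (f := fun l => f (1 :: l) - f (-1 :: l)) (g := fun _ => 2 * c 0)
        fun l _ _ => h [] l
      rwa [ev_const] at this
    have e0 : ev (N + 1) f = (mp + mm) / 2 := rfl
    rw [ev_succ, e0, Finset.sum_range_succ']
    set E := Real.exp (t ^ 2 / 2 * ∑ i ∈ range N, c (i + 1) ^ 2) with hE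
    set d := t * ((mp - mm) / 2) with hdd
    have e1 : ev N (fun l => Real.exp (t * (f (1 :: l) - (mp + mm) / 2))) =
        Real.exp d * ev N (fun l => Real.exp (t * (f (1 :: l) - mp))) := by
      rw [← ev_const_mul]; congr 1; funext l; rw [← Real.exp_add]; congr 1; rw [hdd]; ring
    have e2 : ev N (fun l => Real.exp (t * (f (-1 :: l) - (mp + mm) / 2))) =
        Real.exp (-d) * ev N (fun l => Real.exp (t * (f (-1 :: l) - mm))) := by
      rw [← ev_const_mul]; congr 1; funext l; rw [← Real.exp_add]; congr 1; rw [hdd]; ring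
    rw [e1, e2]
    have h3 : Real.cosh d ≤ Real.exp (d ^ 2 / 2) := Real.cosh_le_exp_half_sq d
    have h4 : d ^ 2 / 2 ≤ t ^ 2 / 2 * c 0 ^ 2 := by
      have h5 : ((mp - mm) / 2) ^ 2 ≤ c 0 ^ 2 := by
        apply sq_le_sq'
        · linarith [(abs_le.1 hd).1]
        · linarith [(abs_le.1 hd).2]
      rw [hdd, mul_pow]
      nlinarith [sq_nonneg t]
    have hE0 : 0 ≤ E := (Real.exp_pos _).le
    calc (Real.exp d * ev N (fun l => Real.exp (t * (f (1 :: l) - mp))) +
          Real.exp (-d) * ev N (fun l => Real.exp (t * (f (-1 :: l) - mm)))) / 2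
        ≤ (Real.exp d * E + Real.exp (-d) * E) / 2 := by
          have a1 := mul_le_mul_of_nonneg_left hp (Real.exp_pos d).le
          have a2 := mul_le_mul_of_nonneg_left hm (Real.exp_pos (-d)).le
          linarith
      _ = Real.cosh d * E := by rw [Real.cosh_eq]; ring
      _ ≤ Real.exp (t ^ 2 / 2 * c 0 ^ 2) * E :=
          mul_le_mul_of_nonneg_right (h3.trans (Real.exp_le_exp.2 h4)) hE0
      _ = _ := by rw [hE, ← Real.exp_add]; congr 1; ring

end Pool.Agent.MP_40890c_pr

end MrgPart0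

-- ======== part 1: formerly Pool.Agent.MP_40890c_pr.Hit
section MrgPart1

/-!
Point probabilities and first passage probabilities of simple random walk.
-/

open Finset

namespace Pool.Agent.MP_40890c_pr

noncomputable def dirac0 (y : ℤ) : ℝ := if y = 0 then 1 else 0

/-- `bb m x` is the probability that the walk is at `-x` (equivalently at `x`) at time `m`. -/
noncomputable def bb (m : ℕ) (x : ℤ) : ℝ := heat m dirac0 x

noncomputable def DD (j : ℕ) (x : ℤ) : ℝ := (bb j (x + 1) - bb j (x - 1)) / 2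

theorem bb_zero (x : ℤ) : bb 0 x = if x = 0 then 1 else 0 := by simp [bb, heat_zero, dirac0]

theorem bb_succ (m : ℕ) (x : ℤ) : bb (m + 1) x = (bb m (x + 1) + bb m (x - 1)) / 2 :=
  heat_succ m dirac0 x

theorem bb_nonneg (m : ℕ) (x : ℤ) : 0 ≤ bb m x :=
  ev_nonneg fun l _ _ => by unfold dirac0; split_ifs <;> norm_num

theorem bb_neg (m : ℕ) (x : ℤ) : bb m (-x) = bb m x := by
  induction m generalizing x with
  | zero => simp [bb_zero]
  | succ m ih =>
    rw [bb_succ, bb_succ, ← ih (x + 1), ← ih (x - 1), add_comm]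
    congr 3 <;> ring

theorem bb_eq_zero_of_lt (m : ℕ) (x : ℤ) (h : (m : ℤ) < x) : bb m x = 0 := by
  induction m generalizing x with
  | zero => rw [bb_zero, if_neg]; omega
  | succ m ih => rw [bb_succ, ih, ih] <;> push_cast at * <;> first | omega | simp

theorem bb_eq_zero_of_odd (m : ℕ) (x : ℤ) (h : (x + m) % 2 = 1) : bb m x = 0 := by
  induction m generalizing x with
  | zero => rw [bb_zero, if_neg]; omega
  | succ m ih => rw [bb_succ, ih, ih] <;> push_cast at * <;> first | omega | simp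

theorem bb_choose (m k : ℕ) : bb m (2 * k - m) = (m.choose k : ℝ) / 2 ^ m := by
  induction m generalizing k with
  | zero =>
    rw [bb_zero]
    rcases k with _ | k
    · simp
    · rw [if_neg (by push_cast; omega)]; simp
  | succ m ih =>
    rw [bb_succ]
    have e1 : (2 * (k : ℤ) - ((m + 1 : ℕ) : ℤ) + 1) = 2 * k - m := by push_cast; ring
    rw [e1, ih]
    rcases k with _ | k
    · have e2 : bb m (2 * ((0 : ℕ) : ℤ) - ((m + 1 : ℕ) : ℤ) - 1) = 0 := by
        rw [← bb_neg]; apply bb_eq_zero_of_lt; push_cast; omega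
      rw [e2]; simp [pow_succ]; ring
    · have e2 : (2 * ((k + 1 : ℕ) : ℤ) - ((m + 1 : ℕ) : ℤ) - 1) = 2 * k - m := by push_cast; ring
      rw [e2, ih, Nat.choose_succ_succ]; push_cast; ring

theorem bb_le (m : ℕ) (x : ℤ) : bb m x ≤ 1 / √(m + 1) := by
  let u : ℤ → ℝ := fun y => if 1 ≤ y then 1 / 2 else -1 / 2
  have h1 : bb m x ≤ heat m (fun y => u (y + 1) - u (y - 1)) x := by
    refine ev_mono fun l _ _ => ?_
    simp only [dirac0, u]
    split_ifs <;> first | omega | norm_num
  rw [heat_grad] at h1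
  have h2 := smoothing m (f := u) (M := 1 / 2) (fun y => by
    simp only [u]; split_ifs <;> norm_num [abs_of_pos, abs_of_neg]) x
  have h3 := (abs_le.1 h2).2
  calc bb m x ≤ _ := h1
    _ ≤ _ := h3
    _ = _ := by ring

theorem DD_eq (j : ℕ) (x : ℤ) : DD j x = -(x : ℝ) * bb (j + 1) x / (j + 1) := by
  have h := stein j dirac0 x
  have h2 : ev (j + 1) (fun l => dirac0 (x + l.sum) * (l.sum : ℝ)) = -(x : ℝ) * bb (j + 1) x := by
    rw [bb, heat, ← ev_const_mul]
    congr 1; funext l
    unfold dirac0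
    split_ifs with h
    · have : l.sum = -x := by omega
      rw [this]; simp
    · simp
  rw [h2] at h
  rw [h, DD, bb, bb]
  field_simp

theorem DD_nonneg (j : ℕ) {x : ℤ} (hx : x ≤ 0) : 0 ≤ DD j x := by
  rw [DD_eq]
  have : (0 : ℝ) ≤ -(x : ℝ) := by
    have : (x : ℝ) ≤ 0 := by exact_mod_cast hx
    linarith
  have := bb_nonneg (j + 1) x
  positivity

theorem DD_nonpos (j : ℕ) {x : ℤ} (hx : 0 ≤ x) : DD j x ≤ 0 := by
  rw [DD_eq]
  have h1 : (0 : ℝ) ≤ (x : ℝ) := by exact_mod_cast hx
  have h2 := bb_nonneg (j + 1) x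
  have : 0 ≤ (x : ℝ) * bb (j + 1) x / (j + 1) := by positivity
  rw [neg_mul, neg_div]; linarith

theorem DD_add (i j : ℕ) (x : ℤ) : DD (i + j) x = heat i (DD j) x := by
  have h1 : ∀ y, bb (i + j) y = heat i (bb j) y := fun y => heat_add i j dirac0 y
  rw [DD, h1, h1, ← heat_grad]
  simp only [heat, DD, div_eq_mul_inv, ev_mul_const]

theorem DD_succ (j : ℕ) (x : ℤ) : DD (j + 1) x = (DD j (x + 1) + DD j (x - 1)) / 2 := by
  rw [add_comm j 1, DD_add, heat_succ, heat_zero, heat_zero]

theorem half_le_sqrt (j i : ℕ) (h : j ≤ 2 * i + 1) : √((j : ℝ) + 1) ≤ √2 * √((i : ℝ) + 1) := by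
  rw [← Real.sqrt_mul (by norm_num)]
  apply Real.sqrt_le_sqrt
  have : (j : ℝ) ≤ 2 * i + 1 := by exact_mod_cast h
  linarith

theorem abs_DD_le (j : ℕ) (x : ℤ) : |DD j x| ≤ 2 / (j + 1) := by
  have hj : j = j / 2 + (j - j / 2) := by omega
  have h1 : ∀ y, bb j y = heat (j / 2) (bb (j - j / 2)) y := fun y => by
    conv_lhs => rw [hj]
    exact heat_add _ _ dirac0 y
  have h2 := smoothing (j / 2) (f := bb (j - j / 2)) (M := 1 / √((j - j / 2 : ℕ) + 1))
    (fun y => by rw [abs_of_nonneg (bb_nonneg _ _)]; exact bb_le _ _) x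
  rw [DD, h1, h1, abs_div, abs_two]
  have a1 := half_le_sqrt j (j / 2) (by omega)
  have a2 := half_le_sqrt j (j - j / 2) (by omega)
  have p1 : (0 : ℝ) < √(((j / 2 : ℕ) : ℝ) + 1) := Real.sqrt_pos.2 (by positivity)
  have p2 : (0 : ℝ) < √(((j - j / 2 : ℕ) : ℝ) + 1) := Real.sqrt_pos.2 (by positivity)
  have p3 : (0 : ℝ) < √((j : ℝ) + 1) := Real.sqrt_pos.2 (by positivity)
  have q3 : √((j : ℝ) + 1) * √((j : ℝ) + 1) = j + 1 := Real.mul_self_sqrt (by positivity)
  have q2 : √2 * √2 = (2 : ℝ) := Real.mul_self_sqrt (by norm_num)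
  set s1 := √(((j / 2 : ℕ) : ℝ) + 1)
  set s2 := √(((j - j / 2 : ℕ) : ℝ) + 1)
  set s := √((j : ℝ) + 1)
  have h4 : s * s ≤ 2 * (s1 * s2) := by
    calc s * s ≤ (√2 * s1) * (√2 * s2) := mul_le_mul a1 a2 p3.le (by positivity)
      _ = (√2 * √2) * (s1 * s2) := by ring
      _ = _ := by rw [q2]
  have h5 : 2 * (1 / s2) / s1 / 2 ≤ 2 / (j + 1) := by
    rw [← q3, div_le_div_iff₀ (by norm_num) (by positivity)]
    have : 2 * (1 / s2) / s1 * (s * s) = 2 * (s * s) / (s1 * s2) := by field_simp
    rw [this, div_le_iff₀ (by positivity)]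
    linarith
  linarith

theorem DD_lip (j : ℕ) (x : ℤ) : |DD j (x + 1) - DD j (x - 1)| ≤ 12 / ((j + 1) * √(j + 1)) := by
  have hj : j = j / 2 + (j - j / 2) := by omega
  have h1 : ∀ y, DD j y = heat (j / 2) (DD (j - j / 2)) y := fun y => by
    conv_lhs => rw [hj]
    exact DD_add _ _ y
  have h2 := smoothing (j / 2) (f := DD (j - j / 2)) (M := 2 / ((j - j / 2 : ℕ) + 1))
    (fun y => abs_DD_le _ _) x
  rw [h1, h1]
  refine h2.trans ?_
  have a1 := half_le_sqrt j (j / 2) (by omega)
  have a2 : (j : ℝ) + 1 ≤ 2 * (((j - j / 2 : ℕ) : ℝ) + 1) := by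
    have : j + 1 ≤ 2 * ((j - j / 2) + 1) := by omega
    exact_mod_cast this
  have p1 : (0 : ℝ) < √(((j / 2 : ℕ) : ℝ) + 1) := Real.sqrt_pos.2 (by positivity)
  have p3 : (0 : ℝ) < √((j : ℝ) + 1) := Real.sqrt_pos.2 (by positivity)
  have q2 : √2 ≤ (3 / 2 : ℝ) := by
    rw [Real.sqrt_le_left (by norm_num)]; norm_num
  set s1 := √(((j / 2 : ℕ) : ℝ) + 1)
  set s := √((j : ℝ) + 1)
  set r := ((j - j / 2 : ℕ) : ℝ) + 1
  have hr : 0 < r := by positivity
  have a3 : s ≤ 3 / 2 * s1 := a1.trans (mul_le_mul_of_nonneg_right q2 p1.le)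
  rw [div_le_div_iff₀ p1 (by positivity)]
  have : 2 * (2 / r) * ((j + 1) * s) = 4 * ((j + 1) * s) / r := by field_simp; ring
  rw [this, div_le_iff₀ hr]
  have h6 : ((j : ℝ) + 1) * s ≤ (2 * r) * (3 / 2 * s1) := mul_le_mul a2 a3 p3.le (by positivity)
  nlinarith

/-- The list `l` of steps is a first passage walk to the level `x`. -/
def FP (x : ℤ) (l : List ℤ) : Prop := l.sum = x ∧ ∀ i < l.length, x < (l.take i).sum

open Classical in
noncomputable def ind (p : Prop) : ℝ := if p then 1 else 0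

theorem ind_nonneg (p : Prop) : 0 ≤ ind p := by unfold ind; split_ifs <;> norm_num

theorem ind_le_one (p : Prop) : ind p ≤ 1 := by unfold ind; split_ifs <;> norm_num

theorem ind_true {p : Prop} (h : p) : ind p = 1 := by simp [ind, h]

theorem ind_false {p : Prop} (h : ¬ p) : ind p = 0 := by simp [ind, h]

theorem ind_congr {p q : Prop} (h : p ↔ q) : ind p = ind q := by rw [propext h]

theorem ind_mono {p q : Prop} (h : p → q) : ind p ≤ ind q := by
  by_cases hp : p
  · rw [ind_true hp, ind_true (h hp)]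
  · rw [ind_false hp]; exact ind_nonneg q

theorem ind_and (p q : Prop) : ind (p ∧ q) = ind p * ind q := by
  by_cases hp : p <;> by_cases hq : q <;> simp [ind, hp, hq]

noncomputable def hit (j : ℕ) (x : ℤ) : ℝ := ev j (fun l => ind (FP x l))

theorem FP_nil (x : ℤ) : FP x [] ↔ x = 0 := by simp [FP, eq_comm]

theorem FP_cons (x s : ℤ) (l : List ℤ) : FP x (s :: l) ↔ x < 0 ∧ FP (x - s) l := by
  unfold FP
  constructor
  · rintro ⟨h1, h2⟩
    refine ⟨by simpa using h2 0 (by simp), ?_, fun i hi => ?_⟩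
    · rw [List.sum_cons] at h1; omega
    · have := h2 (i + 1) (by simpa using hi)
      rw [List.take_succ_cons, List.sum_cons] at this; omega
  · rintro ⟨h0, h1, h2⟩
    refine ⟨by rw [List.sum_cons]; omega, fun i hi => ?_⟩
    rcases i with _ | i
    · simpa using h0
    · have := h2 i (by simpa using hi)
      rw [List.take_succ_cons, List.sum_cons]; omega

theorem hit_zero (x : ℤ) : hit 0 x = if x = 0 then 1 else 0 := by
  simp only [hit, ev_zero, FP_nil, ind]

theorem hit_nonneg (j : ℕ) (x : ℤ) : 0 ≤ hit j x := ev_nonneg fun _ _ _ => ind_nonneg _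

theorem hit_succ_of_nonneg (j : ℕ) {x : ℤ} (hx : 0 ≤ x) : hit (j + 1) x = 0 := by
  have h : ∀ s l, ¬ FP x (s :: l) := fun s l h => by have := ((FP_cons _ _ _).1 h).1; omega
  simp only [hit, ev_succ, ind_false (h _ _), ev_const]; norm_num

theorem hit_succ_of_neg (j : ℕ) {x : ℤ} (hx : x < 0) :
    hit (j + 1) x = (hit j (x + 1) + hit j (x - 1)) / 2 := by
  simp only [hit, ev_succ, FP_cons, hx, true_and, sub_neg_eq_add]
  ring

theorem hit_succ (j : ℕ) (x : ℤ) : hit (j + 1) x = max (DD j x) 0 := by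
  induction j generalizing x with
  | zero =>
    rcases lt_or_ge x 0 with hx | hx
    · rw [hit_succ_of_neg _ hx, max_eq_left (DD_nonneg _ hx.le), hit_zero, hit_zero, DD, bb_zero,
        bb_zero, if_neg (by omega : ¬ x - 1 = 0)]
      ring
    · rw [hit_succ_of_nonneg _ hx, max_eq_right (DD_nonpos _ hx)]
  | succ j ih =>
    rcases lt_or_ge x 0 with hx | hx
    · rw [hit_succ_of_neg _ hx, max_eq_left (DD_nonneg _ hx.le), ih, ih, DD_succ,
        max_eq_left (DD_nonneg _ (by omega)), max_eq_left (DD_nonneg _ (by omega))]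
    · rw [hit_succ_of_nonneg _ hx, max_eq_right (DD_nonpos _ hx)]

theorem hit_le (j : ℕ) (x : ℤ) : hit (j + 1) x ≤ 2 / (j + 1) := by
  rw [hit_succ]
  exact max_le (abs_le.1 (abs_DD_le j x)).2 (by positivity)

theorem hit_lip (j : ℕ) (x : ℤ) :
    |hit (j + 1) (x + 1) - hit (j + 1) (x - 1)| ≤ 12 / ((j + 1) * √(j + 1)) := by
  rw [hit_succ, hit_succ]
  exact (abs_max_sub_max_le_abs _ _ _).trans (DD_lip j x)

theorem hit_of_neg (j : ℕ) {x : ℤ} (hx : x < 0) :
    hit (j + 1) x = -(x : ℝ) * bb (j + 1) x / (j + 1) := by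
  rw [hit_succ, max_eq_left (DD_nonneg _ hx.le), DD_eq]

theorem neg_length_le_sum {l : List ℤ} (h : IsSg l) : -(l.length : ℤ) ≤ l.sum := by
  induction l with
  | nil => simp
  | cons s l ih =>
    have h1 := ih fun x hx => h x (List.mem_cons_of_mem _ hx)
    have h2 := h s (by simp)
    rw [List.sum_cons, List.length_cons]; push_cast; omega

theorem mean_hit (j : ℕ) :
    ev (j + 1) (fun l => hit (j + 1) l.sum) = (bb j 0 ^ 2 + bb j 1 ^ 2) / 4 := by
  have h1 : ev (j + 1) (fun l => hit (j + 1) l.sum) =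
      ev (j + 1) (fun l => ∑ k ∈ range (j + 1),
        DD j (-((k : ℤ) + 1)) * dirac0 ((k : ℤ) + 1 + l.sum)) := by
    refine ev_congr fun l hl hs => ?_
    have h2 := neg_length_le_sum hs
    rw [hl] at h2
    rcases lt_or_ge l.sum 0 with hx | hx
    · rw [hit_succ, max_eq_left (DD_nonneg _ hx.le),
        Finset.sum_eq_single (-l.sum - 1).toNat]
      · have e : (((-l.sum - 1).toNat : ℕ) : ℤ) = -l.sum - 1 := Int.toNat_of_nonneg (by omega)
        rw [e]; simp [dirac0]
      · intro k _ hk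
        rw [dirac0, if_neg (by omega)]; simp
      · intro hk
        exfalso; apply hk; rw [Finset.mem_range]; push_cast at h2; omega
    · rw [hit_succ_of_nonneg _ hx]
      symm
      refine Finset.sum_eq_zero fun k _ => ?_
      rw [dirac0, if_neg (by omega)]; simp
  rw [h1, ev_sum]
  have h3 : ∀ k : ℕ, ev (j + 1) (fun l => DD j (-((k : ℤ) + 1)) * dirac0 ((k : ℤ) + 1 + l.sum)) =
      (bb j k ^ 2 + bb j (k + 1) ^ 2) / 4 -
        (bb j ((k + 1 : ℕ) : ℤ) ^ 2 + bb j (((k + 1 : ℕ) : ℤ) + 1) ^ 2) / 4 := by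
    intro k
    rw [ev_const_mul]
    have e1 : ev (j + 1) (fun l => dirac0 ((k : ℤ) + 1 + l.sum)) = bb (j + 1) (k + 1) := rfl
    rw [e1, bb_succ, DD, ← bb_neg j (-((k : ℤ) + 1) + 1), ← bb_neg j (-((k : ℤ) + 1) - 1)]
    have e2 : -(-((k : ℤ) + 1) + 1) = k := by ring
    have e3 : -(-((k : ℤ) + 1) - 1) = k + 1 + 1 := by ring
    have e4 : (k : ℤ) + 1 - 1 = k := by ring
    rw [e2, e3, e4]; push_cast; ring
  simp only [h3]
  rw [Finset.sum_range_sub']
  rw [bb_eq_zero_of_lt j ((j + 1 : ℕ) : ℤ) (by push_cast; omega),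
    bb_eq_zero_of_lt j (((j + 1 : ℕ) : ℤ) + 1) (by push_cast; omega)]
  simp

end Pool.Agent.MP_40890c_pr

end MrgPart1

-- ======== part 2: formerly Pool.Agent.MP_40890c_pr.Wald
section MrgPart2

/-!
The Wald type identity for the waiting time and the comparison of the first occurrence law with
the uniform law on patterns.
-/

open Finset

namespace Pool.Agent.MP_40890c_pr

def Occ (n : ℕ) (a : ℤ) (L : List ℤ) : Prop := n ≤ L.length ∧ FP a (L.drop (L.length - n))

def NoOcc (n : ℕ) (a : ℤ) (L : List ℤ) : Prop := ∀ j ≤ L.length, ¬ Occ n a (L.take j)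

def First (n : ℕ) (a : ℤ) (L : List ℤ) : Prop :=
  Occ n a L ∧ ∀ j < L.length, ¬ Occ n a (L.take j)

noncomputable def qq (n : ℕ) (a : ℤ) (m : ℕ) : ℝ := ev m (fun L => ind (NoOcc n a L))

noncomputable def ff (n : ℕ) (a : ℤ) (t : ℕ) : ℝ := ev t (fun L => ind (First n a L))

noncomputable def rho (n : ℕ) (a : ℤ) (t j : ℕ) : ℝ :=
  ev t (fun L => ind (First n a L) * hit j ((L.drop (t - n)).take j).sum)

variable {n : ℕ} {a : ℤ}

theorem noOcc_take {L : List ℤ} {m : ℕ} (hm : m ≤ L.length) :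
    NoOcc n a (L.take m) ↔ ∀ j ≤ m, ¬ Occ n a (L.take j) := by
  unfold NoOcc
  rw [List.length_take, min_eq_left hm]
  refine forall_congr' fun j => forall_congr' fun hj => ?_
  rw [List.take_take, min_eq_left hj]

theorem first_take {L : List ℤ} {m : ℕ} (hm : m ≤ L.length) :
    First n a (L.take m) ↔ Occ n a (L.take m) ∧ ∀ j < m, ¬ Occ n a (L.take j) := by
  unfold First
  rw [List.length_take, min_eq_left hm]
  refine and_congr_right fun _ => forall_congr' fun j => forall_congr' fun hj => ?_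
  rw [List.take_take, min_eq_left hj.le]

theorem ind_noOcc_succ {L : List ℤ} {m : ℕ} (hm : m + 1 ≤ L.length) :
    ind (NoOcc n a (L.take m)) =
      ind (NoOcc n a (L.take (m + 1))) + ind (First n a (L.take (m + 1))) := by
  rw [ind_congr (noOcc_take (by omega)), ind_congr (noOcc_take hm), ind_congr (first_take hm)]
  by_cases h1 : ∀ j ≤ m, ¬ Occ n a (L.take j)
  · by_cases h2 : Occ n a (L.take (m + 1))
    · rw [ind_true h1, ind_false (fun h => h _ le_rfl h2),
        ind_true ⟨h2, fun j hj => h1 j (by omega)⟩]; ring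
    · have h3 : ∀ j ≤ m + 1, ¬ Occ n a (L.take j) := by
        intro j hj
        rcases hj.eq_or_lt with rfl | hj
        exacts [h2, h1 j (by omega)]
      have h4 : ¬ (Occ n a (L.take (m + 1)) ∧ ∀ j < m + 1, ¬ Occ n a (L.take j)) :=
        fun h => h2 h.1
      rw [ind_true h1, ind_false h4, ind_true h3]; ring
  · rw [ind_false h1, ind_false (fun h => h1 fun j hj => h j (by omega)),
      ind_false (fun h => h1 fun j hj => h.2 j (by omega))]; ring

theorem qq_nonneg (m : ℕ) : 0 ≤ qq n a m := ev_nonneg fun _ _ _ => ind_nonneg _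

theorem ff_nonneg (m : ℕ) : 0 ≤ ff n a m := ev_nonneg fun _ _ _ => ind_nonneg _

theorem rho_nonneg (t j : ℕ) : 0 ≤ rho n a t j :=
  ev_nonneg fun _ _ _ => mul_nonneg (ind_nonneg _) (hit_nonneg _ _)

theorem qq_zero (hn : 0 < n) : qq n a 0 = 1 := by
  rw [qq, ev_zero, ind_true]
  intro j _ h
  have := h.1
  simp at this; omega

theorem qq_succ (m : ℕ) : qq n a m = qq n a (m + 1) + ff n a (m + 1) := by
  rw [qq, qq, ff, ← ev_add, ← ev_take m 1]
  refine ev_congr fun L hL _ => ?_
  rw [ind_noOcc_succ hL.ge, ← hL, List.take_length]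

theorem ff_of_lt {t : ℕ} (ht : t < n) : ff n a t = 0 := by
  rw [ff, ← ev_const t 0]
  exact ev_congr fun L hL _ => ind_false fun h => by have := h.1.1; omega

theorem rho_of_lt {t : ℕ} (ht : t < n) (j : ℕ) : rho n a t j = 0 := by
  rw [rho, ← ev_const t 0]
  refine ev_congr fun L hL _ => ?_
  rw [ind_false fun h => by have := h.1.1; omega, zero_mul]

theorem sum_ff (hn : 0 < n) (M : ℕ) : ∑ t ∈ range (M + 1), ff n a t = 1 - qq n a M := by
  induction M with
  | zero => simp [ff_of_lt hn, qq_zero hn]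
  | succ M ih => rw [Finset.sum_range_succ, ih, qq_succ M]; ring

theorem FP_drop_append {B l : List ℤ} {j : ℕ} (hB : FP a B) (hj : j < B.length)
    (hl : l.length = j) : FP a (B.drop j ++ l) ↔ FP (B.take j).sum l := by
  have hs : (B.take j).sum + (B.drop j).sum = a := by
    rw [List.sum_take_add_sum_drop]; exact hB.1
  have hlen : (B.drop j).length = B.length - j := List.length_drop
  unfold FP
  rw [List.sum_append, List.length_append, hlen, hl]
  constructor
  · rintro ⟨h1, h2⟩
    refine ⟨by omega, fun i hi => ?_⟩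
    have := h2 (B.length - j + i) (by omega)
    rw [← hlen, List.take_length_add_append, List.sum_append] at this
    omega
  · rintro ⟨h1, h2⟩
    refine ⟨by omega, fun i hi => ?_⟩
    have hy : (B.take j).sum ≤ 0 := by
      rcases Nat.eq_zero_or_pos j with h | h
      · simp [h]
      · have := h2 0 h
        simp at this; omega
    rcases lt_or_ge i (B.length - j) with h | h
    · rw [List.take_append_of_le_length (by omega)]
      have h3 := hB.2 (j + i) (by omega)
      rw [List.take_add, List.sum_append] at h3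
      omega
    · obtain ⟨i', rfl⟩ := Nat.exists_eq_add_of_le h
      rw [← hlen, List.take_length_add_append, List.sum_append]
      have := h2 i' (by omega)
      omega

theorem occ_append {L l : List ℤ} {j : ℕ} (hL : Occ n a L) (hj : j < n) (hl : l.length = j) :
    Occ n a (L ++ l) ↔ FP ((L.drop (L.length - n)).take j).sum l := by
  have h1 := hL.1
  rw [← FP_drop_append hL.2 (by rw [List.length_drop]; omega) hl]
  unfold Occ
  rw [List.length_append, hl, List.drop_append_of_le_length (by omega), List.drop_drop]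
  have e : L.length - n + j = L.length + j - n := by omega
  rw [e]
  exact and_iff_right (by omega)

theorem occ_append_length {L B : List ℤ} (hB : B.length = n) : Occ n a (L ++ B) ↔ FP a B := by
  unfold Occ
  rw [List.length_append, hB, Nat.add_sub_cancel, List.drop_left]
  exact and_iff_right (by omega)

theorem wald (m : ℕ) : hit n a * qq n a m = ∑ j ∈ range n, rho n a (m + n - j) j := by
  have h1 : hit n a * qq n a m =
      ev (m + n) (fun L => ind (NoOcc n a (L.take m)) * ind (Occ n a L)) := by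
    rw [ev_append, qq, ← ev_const_mul]
    refine ev_congr fun L hL _ => ?_
    rw [hit, ← ev_mul_const]
    refine ev_congr fun B hB _ => ?_
    rw [← hL, List.take_left', ind_congr (occ_append_length hB), mul_comm]
    rfl
  have h2 : ∀ j ∈ range n, rho n a (m + n - j) j =
      ev (m + n) (fun L => ind (First n a (L.take (m + n - j))) * ind (Occ n a L)) := by
    intro j hj
    rw [Finset.mem_range] at hj
    have e : m + n = (m + n - j) + j := by omega
    conv_rhs => rw [e]
    rw [ev_append, rho]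
    refine ev_congr fun L hL _ => ?_
    rw [hit, ← ev_const_mul]
    refine ev_congr fun l hl _ => ?_
    rw [Nat.add_sub_cancel, ← hL, List.take_left' rfl]
    by_cases hF : First n a L
    · rw [ind_congr (occ_append hF.1 hj hl)]
    · rw [ind_false hF, zero_mul, zero_mul]
  rw [h1, Finset.sum_congr rfl h2, ← ev_sum]
  refine ev_congr fun L hL _ => ?_
  rw [← Finset.sum_mul]
  by_cases hO : Occ n a L
  · congr 1
    have h3 : ∀ k ≤ n, ind (NoOcc n a (L.take m)) = ind (NoOcc n a (L.take (m + k))) +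
        ∑ i ∈ range k, ind (First n a (L.take (m + i + 1))) := by
      intro k hk
      induction k with
      | zero => simp
      | succ k ih =>
        rw [ih (by omega), Finset.sum_range_succ, ind_noOcc_succ (m := m + k) (by omega)]
        rw [add_assoc m k 1]; ring
    rw [h3 n le_rfl, ind_false, zero_add, ← Finset.sum_range_reflect]
    · refine Finset.sum_congr rfl fun j hj => ?_
      rw [Finset.mem_range] at hj
      congr 3; omega
    · rw [noOcc_take hL.ge]
      intro h
      apply h _ le_rfl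
      rwa [← hL, List.take_length]
  · rw [ind_false hO, mul_zero, mul_zero]

theorem FP_append {l1 l2 : List ℤ} (h : FP a (l1 ++ l2)) : FP (a - l1.sum) l2 := by
  obtain ⟨h1, h2⟩ := h
  rw [List.sum_append] at h1
  refine ⟨by omega, fun i hi => ?_⟩
  have := h2 (l1.length + i) (by rw [List.length_append]; omega)
  rw [List.take_length_add_append, List.sum_append] at this
  omega

theorem bias {t J : ℕ} (ht : n ≤ t) (hJ : J < n) {g : List ℤ → ℝ} (hg : ∀ l, 0 ≤ g l) :
    ev t (fun L => ind (First n a L) * g ((L.drop (t - n)).take J)) ≤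
      qq n a (t - n) * (2 / (n - J : ℕ) * ev J g) := by
  have h1 : ev n (fun B => ind (FP a B) * g (B.take J)) ≤ 2 / (n - J : ℕ) * ev J g := by
    have e : n = J + (n - J) := by omega
    conv_lhs => rw [e]
    rw [ev_append, ← ev_const_mul]
    refine ev_mono fun l1 hl1 _ => ?_
    have h2 : ev (n - J) (fun l2 => ind (FP a (l1 ++ l2)) * g ((l1 ++ l2).take J)) ≤
        hit (n - J) (a - l1.sum) * g l1 := by
      rw [hit, ← ev_mul_const]
      refine ev_mono fun l2 _ _ => ?_
      rw [← hl1, List.take_left' rfl]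
      exact mul_le_mul_of_nonneg_right (ind_mono FP_append) (hg _)
    refine h2.trans (mul_le_mul_of_nonneg_right ?_ (hg _))
    obtain ⟨k, hk⟩ : ∃ k, n - J = k + 1 := ⟨n - J - 1, by omega⟩
    rw [hk]; push_cast
    exact hit_le _ _
  have e : t = (t - n) + n := by omega
  conv_lhs => rw [e]
  rw [ev_append, qq, ← ev_mul_const]
  refine ev_mono fun L hL _ => ?_
  refine le_trans ?_ (mul_le_mul_of_nonneg_left h1 (ind_nonneg _))
  rw [← ev_const_mul]
  refine ev_mono fun B hB _ => ?_
  rw [Nat.add_sub_cancel, ← hL, List.drop_left, ← mul_assoc, ← ind_and]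
  refine mul_le_mul_of_nonneg_right (ind_mono fun h => ⟨?_, (occ_append_length hB).1 h.1⟩) (hg _)
  intro j hj
  have := h.2 j (by rw [List.length_append]; omega)
  rwa [List.take_append_of_le_length hj] at this

end Pool.Agent.MP_40890c_pr

end MrgPart2

-- ======== part 3: formerly Pool.Agent.MP_40890c_pr.Bounds
section MrgPart3

/-!
Concentration of the overlap sum and two sided bounds for the expected waiting time.
-/

open Finset Filter Topology

namespace Pool.Agent.MP_40890c_pr

noncomputable def ZZ (J : ℕ) (l : List ℤ) : ℝ := ∑ j ∈ range J, hit (j + 1) (l.take (j + 1)).sum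

noncomputable def mu (J : ℕ) : ℝ := ∑ j ∈ range J, (bb j 0 ^ 2 + bb j 1 ^ 2) / 4

theorem mu_nonneg (J : ℕ) : 0 ≤ mu J := Finset.sum_nonneg fun _ _ => by positivity

theorem ev_ZZ (J : ℕ) : ev J (ZZ J) = mu J := by
  unfold ZZ mu
  rw [ev_sum]
  refine Finset.sum_congr rfl fun j hj => ?_
  rw [Finset.mem_range] at hj
  have e : J = (j + 1) + (J - (j + 1)) := by omega
  rw [← mean_hit, e, ev_take (j + 1) _ (fun l => hit (j + 1) l.sum)]

theorem tele_step (j : ℕ) :
    1 / (((j : ℝ) + 1) * √(j + 1)) ≤ 4 * (1 / √(j + 1) - 1 / √(((j + 1 : ℕ) : ℝ) + 1)) := by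
  push_cast
  have p1 : (0 : ℝ) < √((j : ℝ) + 1) := Real.sqrt_pos.2 (by positivity)
  have p2 : (0 : ℝ) < √((j : ℝ) + 1 + 1) := Real.sqrt_pos.2 (by positivity)
  have q1 : √((j : ℝ) + 1) ^ 2 = j + 1 := Real.sq_sqrt (by positivity)
  have q2 : √((j : ℝ) + 1 + 1) ^ 2 = j + 1 + 1 := Real.sq_sqrt (by positivity)
  have hj : (0 : ℝ) ≤ j := Nat.cast_nonneg j
  set s := √((j : ℝ) + 1)
  set r := √((j : ℝ) + 1 + 1)
  have h1 : r ≤ 3 / 2 * s := by
    apply le_of_sq_le_sq _ (by positivity)
    nlinarith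
  have h2 : (r - s) * (r + s) = 1 := by nlinarith
  have h3 : r - s = 1 / (r + s) := by rw [eq_div_iff (by positivity)]; exact h2
  have h4 : 1 / s - 1 / r = 1 / (s * r * (r + s)) := by
    rw [div_sub_div _ _ p1.ne' p2.ne', one_mul, mul_one, h3]; field_simp
  rw [h4, ← q1, mul_one_div, div_le_div_iff₀ (by positivity) (by positivity)]
  have h5 : r * (r + s) ≤ (3 / 2 * s) * (3 / 2 * s + s) := by gcongr
  nlinarith [mul_le_mul_of_nonneg_left h5 p1.le, pow_pos p1 3]

theorem tail_sum (i J : ℕ) :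
    ∑ j ∈ range J, (if i ≤ j then 12 / (((j : ℝ) + 1) * √(j + 1)) else 0) ≤ 48 / √(i + 1) := by
  have key : ∀ J, ∑ j ∈ range J, (if i ≤ j then 12 / (((j : ℝ) + 1) * √(j + 1)) else 0) ≤
      48 * (1 / √(i + 1) - 1 / √(((max i J : ℕ) : ℝ) + 1)) := by
    intro J
    induction J with
    | zero => simp
    | succ J ih =>
      rw [Finset.sum_range_succ]
      split_ifs with h
      · rw [max_eq_right h] at ih
        rw [max_eq_right (by omega : i ≤ J + 1)]
        have := tele_step J
        have e : 12 / (((J : ℝ) + 1) * √(J + 1)) = 12 * (1 / (((J : ℝ) + 1) * √(J + 1))) := by ring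
        rw [e]; linarith
      · rw [max_eq_left (by omega : J ≤ i)] at ih
        rw [max_eq_left (by omega : J + 1 ≤ i)]
        linarith
  refine (key J).trans ?_
  have : 0 ≤ 1 / √(((max i J : ℕ) : ℝ) + 1) := by positivity
  have e : 48 / √((i : ℝ) + 1) = 48 * (1 / √(i + 1)) := by ring
  rw [e]; linarith

theorem ZZ_diff (J : ℕ) (l1 l2 : List ℤ) :
    |ZZ J (l1 ++ 1 :: l2) - ZZ J (l1 ++ -1 :: l2)| ≤ 2 * (24 / √(l1.length + 1)) := by
  unfold ZZ
  rw [← Finset.sum_sub_distrib]
  refine (Finset.abs_sum_le_sum_abs _ _).trans (le_trans (Finset.sum_le_sum fun j _ => ?_)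
    ((tail_sum l1.length J).trans (le_of_eq (by ring))))
  split_ifs with h
  · obtain ⟨k, rfl⟩ := Nat.exists_eq_add_of_le h
    rw [add_assoc, List.take_length_add_append, List.take_length_add_append, List.take_succ_cons,
      List.take_succ_cons, List.sum_append, List.sum_append, List.sum_cons, List.sum_cons]
    have := hit_lip (l1.length + k) (l1.sum + (l2.take k).sum)
    rw [add_assoc l1.length k 1] at this
    have e1 : l1.sum + (1 + (l2.take k).sum) = l1.sum + (l2.take k).sum + 1 := by ring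
    have e2 : l1.sum + (-1 + (l2.take k).sum) = l1.sum + (l2.take k).sum - 1 := by ring
    rw [e1, e2]
    exact this
  · rw [List.take_append_of_le_length (by omega), List.take_append_of_le_length (by omega)]
    simp

theorem ZZ_mgf (J : ℕ) (t : ℝ) :
    ev J (fun l => Real.exp (t * (ZZ J l - mu J))) ≤
      Real.exp (t ^ 2 / 2 * (576 * (1 + Real.log J))) := by
  have h := mcdiarmid J (fun i => 24 / √(i + 1)) (ZZ J) t (ZZ_diff J)
  rw [ev_ZZ] at h
  refine h.trans (Real.exp_le_exp.2 (mul_le_mul_of_nonneg_left ?_ (by positivity)))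
  have h2 := harmonic_le_one_add_log J
  have h3 : ∑ i ∈ range J, (24 / √((i : ℝ) + 1)) ^ 2 = 576 * (harmonic J : ℝ) := by
    simp only [harmonic]
    push_cast
    rw [Finset.mul_sum]
    refine Finset.sum_congr rfl fun i _ => ?_
    rw [div_pow, Real.sq_sqrt (by positivity)]; norm_num [div_eq_mul_inv]
  rw [h3]; linarith

noncomputable def dev (J : ℕ) (t d : ℝ) (l : List ℤ) : ℝ :=
  Real.exp (-(t * d)) / t *
    (Real.exp (t * (ZZ J l - mu J)) + Real.exp (-t * (ZZ J l - mu J)))

theorem dev_nonneg (J : ℕ) {t : ℝ} (ht : 0 < t) (d : ℝ) (l : List ℤ) : 0 ≤ dev J t d l := by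
  unfold dev; positivity

theorem abs_le_dev (J : ℕ) {t : ℝ} (ht : 0 < t) (d : ℝ) (l : List ℤ) :
    |ZZ J l - mu J| ≤ d + dev J t d l := by
  have key : ∀ y : ℝ, y ≤ d + Real.exp (-(t * d)) / t * Real.exp (t * y) := by
    intro y
    have h1 := Real.add_one_le_exp (t * (y - d))
    have h2 : Real.exp (-(t * d)) / t * Real.exp (t * y) = Real.exp (t * (y - d)) / t := by
      rw [div_mul_eq_mul_div, ← Real.exp_add]; congr 2; ring
    rw [h2, ← sub_le_iff_le_add', le_div_iff₀ ht]
    linarith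
  have p : 0 ≤ Real.exp (-(t * d)) / t := by positivity
  unfold dev
  set y := ZZ J l - mu J
  have a1 := key y
  have a2 := key (-y)
  have e : t * -y = -t * y := by ring
  rw [e] at a2
  have b1 := mul_nonneg p (Real.exp_pos (t * y)).le
  have b2 := mul_nonneg p (Real.exp_pos (-t * y)).le
  rw [abs_le, mul_add]
  constructor <;> linarith

noncomputable def eta (J : ℕ) (t d : ℝ) : ℝ :=
  Real.exp (-(t * d)) / t * (2 * Real.exp (t ^ 2 / 2 * (576 * (1 + Real.log J))))

theorem ev_dev (J : ℕ) {t : ℝ} (ht : 0 < t) (d : ℝ) : ev J (dev J t d) ≤ eta J t d := by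
  unfold dev eta
  rw [ev_const_mul, ev_add]
  refine mul_le_mul_of_nonneg_left ?_ (by positivity)
  have h1 := ZZ_mgf J t
  have h2 := ZZ_mgf J (-t)
  rw [neg_sq] at h2
  linarith

theorem GG_bounds {n : ℕ} (hn : 0 < n) (B : List ℤ) :
    ZZ (n / 2) (B.take (n / 2)) ≤ ∑ j ∈ range n, hit j (B.take j).sum ∧
      ∑ j ∈ range n, hit j (B.take j).sum ≤ ZZ (n / 2) (B.take (n / 2)) + 3 := by
  set J := n / 2 with hJ
  have e : n = (J + (n - 1 - J)) + 1 := by omega
  have h1 : ∑ j ∈ range n, hit j (B.take j).sum = ZZ J (B.take J) +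
      ∑ k ∈ range (n - 1 - J), hit (J + k + 1) (B.take (J + k + 1)).sum + 1 := by
    conv_lhs => rw [e]
    rw [Finset.sum_range_succ', Finset.sum_range_add]
    congr 2
    · refine Finset.sum_congr rfl fun j hj => ?_
      rw [Finset.mem_range] at hj
      rw [List.take_take, min_eq_left (by omega)]
    · simp [hit_zero]
  have h2 : 0 ≤ ∑ k ∈ range (n - 1 - J), hit (J + k + 1) (B.take (J + k + 1)).sum :=
    Finset.sum_nonneg fun _ _ => hit_nonneg _ _
  have h3 : ∑ k ∈ range (n - 1 - J), hit (J + k + 1) (B.take (J + k + 1)).sum ≤ 2 := by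
    calc _ ≤ ∑ _k ∈ range (n - 1 - J), (2 / ((J : ℝ) + 1)) := by
          refine Finset.sum_le_sum fun k _ => (hit_le _ _).trans ?_
          push_cast
          gcongr
          have : (0 : ℝ) ≤ k := Nat.cast_nonneg k
          linarith
      _ = ((n - 1 - J : ℕ) : ℝ) * (2 / ((J : ℝ) + 1)) := by simp
      _ ≤ ((J : ℝ) + 1) * (2 / ((J : ℝ) + 1)) := by
          gcongr
          have : n - 1 - J ≤ J + 1 := by omega
          exact_mod_cast this
      _ = 2 := by field_simp
  rw [h1]
  constructor <;> linarith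

noncomputable def kap (n : ℕ) (t d : ℝ) : ℝ := 2 / (n - n / 2 : ℕ) * eta (n / 2) t d

theorem kap_nonneg (n : ℕ) {t : ℝ} (ht : 0 < t) (d : ℝ) : 0 ≤ kap n t d := by
  unfold kap eta; positivity

theorem RR_bounds {n : ℕ} (hn : 0 < n) (a : ℤ) {t : ℝ} (ht : 0 < t) (d : ℝ) (s : ℕ) :
    (mu (n / 2) - d) * ff n a s - kap n t d * (if n ≤ s then qq n a (s - n) else 0) ≤
        ∑ j ∈ range n, rho n a s j ∧
      ∑ j ∈ range n, rho n a s j ≤
        (mu (n / 2) + d + 3) * ff n a s + kap n t d * (if n ≤ s then qq n a (s - n) else 0) := by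
  split_ifs with hs
  · have h1 : ∑ j ∈ range n, rho n a s j = ev s (fun L => ind (First n a L) *
        ∑ j ∈ range n, hit j ((L.drop (s - n)).take j).sum) := by
      simp only [rho, Finset.mul_sum, ev_sum]
    have h2 := bias (a := a) hs (by omega : n / 2 < n) (dev_nonneg (n / 2) ht d)
    have h3 : qq n a (s - n) * (2 / (n - n / 2 : ℕ) * ev (n / 2) (dev (n / 2) t d)) ≤
        kap n t d * qq n a (s - n) := by
      rw [mul_comm]
      refine mul_le_mul_of_nonneg_right ?_ (qq_nonneg _)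
      exact mul_le_mul_of_nonneg_left (ev_dev _ ht d) (by positivity)
    have h4 := h2.trans h3
    rw [h1]
    constructor
    · refine le_trans (sub_le_sub_left h4 _) ?_
      rw [ff, ← ev_const_mul, ← ev_sub]
      refine ev_mono fun L _ _ => ?_
      have b1 := (GG_bounds hn (L.drop (s - n))).1
      have b2 := (abs_le.1 (abs_le_dev (n / 2) ht d ((L.drop (s - n)).take (n / 2)))).1
      have b3 := ind_nonneg (First n a L)
      nlinarith
    · refine le_trans ?_ (add_le_add le_rfl h4)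
      rw [ff, ← ev_const_mul, ← ev_add]
      refine ev_mono fun L _ _ => ?_
      have b1 := (GG_bounds hn (L.drop (s - n))).2
      have b2 := (abs_le.1 (abs_le_dev (n / 2) ht d ((L.drop (s - n)).take (n / 2)))).2
      have b3 := ind_nonneg (First n a L)
      nlinarith
  · push Not at hs
    simp [rho_of_lt hs, ff_of_lt hs]

theorem sum_shift (n : ℕ) (a : ℤ) (M : ℕ) :
    ∑ s ∈ range (M + n), (if n ≤ s then qq n a (s - n) else 0) = ∑ m ∈ range M, qq n a m := by
  rw [add_comm, Finset.sum_range_add, Finset.sum_eq_zero, zero_add]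
  · refine Finset.sum_congr rfl fun m _ => ?_
    rw [if_pos (by omega), Nat.add_sub_cancel_left]
  · intro s hs
    rw [Finset.mem_range] at hs
    rw [if_neg (by omega)]

theorem upper_ineq {n : ℕ} (hn : 0 < n) (a : ℤ) {t : ℝ} (ht : 0 < t) {d : ℝ} (hd : 0 ≤ d)
    (M : ℕ) : hit n a * ∑ m ∈ range M, qq n a m ≤
      (mu (n / 2) + d + 3) + kap n t d * ∑ m ∈ range M, qq n a m := by
  have h1 : hit n a * ∑ m ∈ range M, qq n a m ≤
      ∑ s ∈ range (M + n), ∑ j ∈ range n, rho n a s j := by
    simp only [Finset.mul_sum, wald]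
    rw [Finset.sum_comm, Finset.sum_comm (s := range (M + n))]
    refine Finset.sum_le_sum fun j hj => ?_
    rw [Finset.mem_range] at hj
    have e : M + n = (n - j) + (M + j) := by omega
    rw [e, Finset.sum_range_add, Finset.sum_range_add]
    have a1 : 0 ≤ ∑ x ∈ range (n - j), rho n a x j := Finset.sum_nonneg fun _ _ => rho_nonneg _ _
    have a2 : 0 ≤ ∑ x ∈ range j, rho n a (n - j + (M + x)) j :=
      Finset.sum_nonneg fun _ _ => rho_nonneg _ _
    have a3 : ∑ m ∈ range M, rho n a (m + n - j) j = ∑ m ∈ range M, rho n a (n - j + m) j :=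
      Finset.sum_congr rfl fun m _ => by congr 1; omega
    linarith
  refine h1.trans ((Finset.sum_le_sum fun s _ => (RR_bounds hn a ht d s).2).trans ?_)
  rw [Finset.sum_add_distrib, ← Finset.mul_sum, ← Finset.mul_sum, sum_shift]
  have e : M + n = (M + n - 1) + 1 := by omega
  rw [e, sum_ff hn]
  have a1 := mu_nonneg (n / 2)
  have a2 := qq_nonneg (n := n) (a := a) (M + n - 1)
  nlinarith

theorem lower_ineq {n : ℕ} (hn : 0 < n) (a : ℤ) {t : ℝ} (ht : 0 < t) (d : ℝ) (M : ℕ) :
    (mu (n / 2) - d) * (1 - qq n a M) - kap n t d * ∑ m ∈ range M, qq n a m ≤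
      hit n a * ∑ m ∈ range M, qq n a m := by
  have h1 : ∑ s ∈ range (M + 1), ∑ j ∈ range n, rho n a s j ≤
      hit n a * ∑ m ∈ range M, qq n a m := by
    simp only [Finset.mul_sum, wald]
    rw [Finset.sum_comm, Finset.sum_comm (s := range M)]
    refine Finset.sum_le_sum fun j hj => ?_
    rw [Finset.mem_range] at hj
    have a0 : ∑ s ∈ range (M + 1), rho n a s j ≤ ∑ s ∈ range ((n - j) + M), rho n a s j :=
      Finset.sum_le_sum_of_subset_of_nonneg (Finset.range_mono (by omega))
        fun _ _ _ => rho_nonneg _ _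
    rw [Finset.sum_range_add _ (n - j)] at a0
    have a1 : ∑ x ∈ range (n - j), rho n a x j = 0 :=
      Finset.sum_eq_zero fun x hx => rho_of_lt (by rw [Finset.mem_range] at hx; omega) _
    have a3 : ∑ m ∈ range M, rho n a (m + n - j) j = ∑ m ∈ range M, rho n a (n - j + m) j :=
      Finset.sum_congr rfl fun m _ => by congr 1; omega
    linarith
  refine le_trans ?_ ((Finset.sum_le_sum fun s _ => (RR_bounds hn a ht d s).1).trans h1)
  rw [Finset.sum_sub_distrib, ← Finset.mul_sum, ← Finset.mul_sum, sum_ff hn, ← sum_shift n a M]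
  have a0 : ∑ s ∈ range (M + 1), (if n ≤ s then qq n a (s - n) else 0) ≤
      ∑ s ∈ range (M + n), (if n ≤ s then qq n a (s - n) else 0) :=
    Finset.sum_le_sum_of_subset_of_nonneg (Finset.range_mono (by omega))
      fun s _ _ => by split_ifs; exacts [qq_nonneg _, le_rfl]
  have := mul_le_mul_of_nonneg_left a0 (kap_nonneg n ht d)
  linarith

theorem tsum_bounds {n : ℕ} (hn : 0 < n) (a : ℤ) {t : ℝ} (ht : 0 < t) {d : ℝ} (hd : 0 ≤ d)
    (hk : kap n t d < hit n a) :
    Summable (qq n a) ∧ (mu (n / 2) - d) / (hit n a + kap n t d) ≤ ∑' m, qq n a m ∧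
      ∑' m, qq n a m ≤ (mu (n / 2) + d + 3) / (hit n a - kap n t d) := by
  have hk0 := kap_nonneg n ht d
  have h1 : ∀ M, ∑ m ∈ range M, qq n a m ≤ (mu (n / 2) + d + 3) / (hit n a - kap n t d) := by
    intro M
    rw [le_div_iff₀ (by linarith)]
    have := upper_ineq hn a ht hd M
    linarith
  have hs : Summable (qq n a) := summable_of_sum_range_le qq_nonneg h1
  refine ⟨hs, ?_, hs.tsum_le_of_sum_range_le h1⟩
  rw [div_le_iff₀ (by linarith)]
  have t1 := hs.hasSum.tendsto_sum_nat
  have t2 := hs.tendsto_atTop_zero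
  have t3 := ((t2.const_sub 1).const_mul (mu (n / 2) - d)).sub (t1.const_mul (kap n t d))
  have t4 := t1.const_mul (hit n a)
  have := le_of_tendsto_of_tendsto' t3 t4 fun M => lower_ineq hn a ht d M
  linarith

end Pool.Agent.MP_40890c_pr

end MrgPart3

-- ======== part 4: formerly Pool.Agent.MP_40890c_pr.LLT
section MrgPart4

/-!
The local limit theorem for simple random walk, from Stirling's formula.
-/

open Finset Filter Topology Stirling

namespace Pool.Agent.MP_40890c_pr

noncomputable def psi (u : ℝ) : ℝ := (1 + u) * Real.log (1 + u) + (1 - u) * Real.log (1 - u)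

theorem psi_bound {u : ℝ} (hu : |u| ≤ 1 / 2) : |psi u - u ^ 2| ≤ 6 * |u| ^ 3 := by
  have h1 := Real.abs_log_sub_add_sum_range_le (x := u) (by linarith) 2
  have h2 := Real.abs_log_sub_add_sum_range_le (x := -u) (by rw [abs_neg]; linarith) 2
  simp only [Finset.sum_range_succ, Finset.sum_range_zero, abs_neg, sub_neg_eq_add] at h1 h2
  norm_num at h1 h2
  have h3 : |u| ^ 3 / (1 - |u|) ≤ 2 * |u| ^ 3 := by
    rw [div_le_iff₀ (by linarith)]
    have : 0 ≤ |u| ^ 3 := by positivity
    nlinarith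
  set e1 := u + u ^ 2 / 2 + Real.log (1 - u)
  set e2 := -u + u ^ 2 / 2 + Real.log (1 + u)
  have h4 : psi u - u ^ 2 = (1 + u) * e2 + (1 - u) * e1 := by
    simp only [psi, e1, e2]; ring
  have h5 : |1 + u| ≤ 3 / 2 := by
    rw [abs_le] at hu ⊢; constructor <;> linarith [hu.1, hu.2]
  have h6 : |1 - u| ≤ 3 / 2 := by
    rw [abs_le] at hu ⊢; constructor <;> linarith [hu.1, hu.2]
  rw [h4]
  calc |(1 + u) * e2 + (1 - u) * e1| ≤ |1 + u| * |e2| + |1 - u| * |e1| := by
        rw [← abs_mul, ← abs_mul]; exact abs_add_le _ _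
    _ ≤ 3 / 2 * (2 * |u| ^ 3) + 3 / 2 * (2 * |u| ^ 3) := by
        gcongr
        · exact h2.trans h3
        · exact h1.trans h3
    _ = _ := by ring

theorem factorial_eq {n : ℕ} (hn : n ≠ 0) :
    (n.factorial : ℝ) = stirlingSeq n * (√(2 * n) * (n / Real.exp 1) ^ n) := by
  have : (0 : ℝ) < n := by positivity
  unfold stirlingSeq
  field_simp

theorem stirlingSeq_pos {n : ℕ} (hn : n ≠ 0) : 0 < stirlingSeq n :=
  lt_of_lt_of_le (Real.sqrt_pos.2 Real.pi_pos) (sqrt_pi_le_stirlingSeq hn)

theorem choose_formula (k k' : ℕ) (hk : k ≠ 0) (hk' : k' ≠ 0) (u : ℝ)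
    (h1 : (k : ℝ) = ((k + k' : ℕ) : ℝ) * (1 + u) / 2)
    (h2 : (k' : ℝ) = ((k + k' : ℕ) : ℝ) * (1 - u) / 2) :
    √((k + k' : ℕ) : ℝ) * (((k + k').choose k : ℝ) / 2 ^ (k + k')) =
      stirlingSeq (k + k') / (stirlingSeq k * stirlingSeq k') * (√2 / (√(1 + u) * √(1 - u))) *
        Real.exp (-(((k + k' : ℕ) : ℝ) / 2 * psi u)) := by
  have hkp : (0 : ℝ) < k := by positivity
  have hkp' : (0 : ℝ) < k' := by positivity
  set n : ℝ := ((k + k' : ℕ) : ℝ) with hn
  have hnp : 0 < n := by rw [hn]; push_cast; positivity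
  have hu1 : 0 < 1 + u := by
    by_contra hc
    have : n * (1 + u) ≤ 0 := mul_nonpos_of_nonneg_of_nonpos hnp.le (not_lt.1 hc)
    linarith
  have hu2 : 0 < 1 - u := by
    by_contra hc
    have : n * (1 - u) ≤ 0 := mul_nonpos_of_nonneg_of_nonpos hnp.le (not_lt.1 hc)
    linarith
  have e1 : Real.exp (-(n / 2 * psi u)) = 1 / ((1 + u) ^ k * (1 - u) ^ k') := by
    have : n / 2 * psi u = k * Real.log (1 + u) + k' * Real.log (1 - u) := by
      rw [h1, h2, psi]; ring
    rw [this, Real.exp_neg, Real.exp_add, Real.exp_nat_mul, Real.exp_nat_mul, Real.exp_log hu1,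
      Real.exp_log hu2, one_div]
  have e2 : (((k + k').choose k : ℕ) : ℝ) =
      ((k + k').factorial : ℝ) / ((k.factorial : ℝ) * k'.factorial) := by
    rw [Nat.cast_add_choose]
  have s1 := stirlingSeq_pos hk
  have s2 := stirlingSeq_pos hk'
  have e3 : √(2 * (k : ℝ)) = √n * √(1 + u) := by
    rw [← Real.sqrt_mul hnp.le]; congr 1; rw [h1]; ring
  have e4 : √(2 * (k' : ℝ)) = √n * √(1 - u) := by
    rw [← Real.sqrt_mul hnp.le]; congr 1; rw [h2]; ring
  have e5 : √(2 * n) = √2 * √n := Real.sqrt_mul (by norm_num) _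
  have e6 : ((k : ℝ) / Real.exp 1) ^ k = (n / Real.exp 1) ^ k * (1 + u) ^ k / 2 ^ k := by
    rw [← mul_pow, ← div_pow]; congr 1; rw [h1]; ring
  have e7 : ((k' : ℝ) / Real.exp 1) ^ k' = (n / Real.exp 1) ^ k' * (1 - u) ^ k' / 2 ^ k' := by
    rw [← mul_pow, ← div_pow]; congr 1; rw [h2]; ring
  rw [e1, e2, factorial_eq (n := k + k') (by omega), factorial_eq hk, factorial_eq hk', ← hn,
    e3, e4, e5, e6, e7, pow_add, pow_add]
  have p1 : 0 < √n := Real.sqrt_pos.2 hnp
  have p2 : 0 < √(1 + u) := Real.sqrt_pos.2 hu1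
  have p3 : 0 < √(1 - u) := Real.sqrt_pos.2 hu2
  have p4 : 0 < n / Real.exp 1 := by positivity
  field_simp

theorem tendsto_sqrt_nat : Tendsto (fun n : ℕ => √(n : ℝ)) atTop atTop :=
  Real.tendsto_sqrt_atTop.comp tendsto_natCast_atTop_atTop

theorem llt (a : ℕ → ℤ) (hpar : ∀ n : ℕ, (a n + n) % 2 = 0) (lam : ℝ)
    (h : Tendsto (fun n : ℕ => (a n : ℝ) / √n) atTop (𝓝 lam)) :
    Tendsto (fun n : ℕ => √n * bb n (a n)) atTop
      (𝓝 (√2 / √Real.pi * Real.exp (-(lam ^ 2 / 2)))) := by
  let u : ℕ → ℝ := fun n => (a n : ℝ) / n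
  have hu : Tendsto u atTop (𝓝 0) := by
    have h1 := h.mul (tendsto_inv_atTop_zero.comp tendsto_sqrt_nat)
    rw [mul_zero] at h1
    refine h1.congr fun n => ?_
    simp only [u, Function.comp]
    rw [← div_eq_mul_inv, div_div, Real.mul_self_sqrt (Nat.cast_nonneg n)]
  have hu2 : ∀ᶠ n in atTop, |u n| ≤ 1 / 2 := by
    have := hu.abs
    rw [abs_zero] at this
    exact this.eventually (ge_mem_nhds (by norm_num))
  let k : ℕ → ℕ := fun n => ((n + a n) / 2).toNat
  let k' : ℕ → ℕ := fun n => ((n - a n) / 2).toNat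
  have hk : ∀ᶠ n : ℕ in atTop, k n + k' n = n ∧ 2 * (k n : ℤ) - n = a n ∧
      (k n : ℝ) = n * (1 + u n) / 2 ∧ (k' n : ℝ) = n * (1 - u n) / 2 ∧ n ≠ 0 ∧ |u n| ≤ 1 / 2 := by
    filter_upwards [hu2, eventually_gt_atTop 0] with n hn hn0
    have hnp : (0 : ℝ) < n := by positivity
    have h3 : |(a n : ℝ)| ≤ n := by
      have : |(a n : ℝ)| = |u n| * n := by
        simp only [u]; rw [abs_div, abs_of_pos hnp]; field_simp
      rw [this]; nlinarith
    have h4 : |a n| ≤ (n : ℤ) := by exact_mod_cast h3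
    rw [abs_le] at h4
    have hp := hpar n
    have e1 : (k n : ℤ) = (n + a n) / 2 := Int.toNat_of_nonneg (by omega)
    have e2 : (k' n : ℤ) = (n - a n) / 2 := Int.toNat_of_nonneg (by omega)
    have e3 : 2 * (k n : ℤ) = n + a n := by omega
    have e4 : 2 * (k' n : ℤ) = n - a n := by omega
    have e5 : 2 * (k n : ℝ) = n + a n := by exact_mod_cast e3
    have e6 : 2 * (k' n : ℝ) = n - a n := by exact_mod_cast e4
    refine ⟨by omega, by omega, ?_, ?_, hn0.ne', hn⟩
    · simp only [u]; field_simp; linarith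
    · simp only [u]; field_simp; linarith
  have hk1 : Tendsto k atTop atTop := by
    rw [← tendsto_natCast_atTop_iff (R := ℝ)]
    refine tendsto_atTop_mono' atTop ?_
      (tendsto_natCast_atTop_atTop.atTop_div_const (by norm_num : (0 : ℝ) < 4))
    filter_upwards [hk] with n hn
    have := (abs_le.1 hn.2.2.2.2.2).1
    have hnp : (0 : ℝ) ≤ n := Nat.cast_nonneg n
    rw [hn.2.2.1]; nlinarith
  have hk2 : Tendsto k' atTop atTop := by
    rw [← tendsto_natCast_atTop_iff (R := ℝ)]
    refine tendsto_atTop_mono' atTop ?_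
      (tendsto_natCast_atTop_atTop.atTop_div_const (by norm_num : (0 : ℝ) < 4))
    filter_upwards [hk] with n hn
    have := (abs_le.1 hn.2.2.2.2.2).2
    have hnp : (0 : ℝ) ≤ n := Nat.cast_nonneg n
    rw [hn.2.2.2.1]; nlinarith
  have hpi : (0 : ℝ) < √Real.pi := Real.sqrt_pos.2 Real.pi_pos
  have t1 : Tendsto (fun n => stirlingSeq n / (stirlingSeq (k n) * stirlingSeq (k' n))) atTop
      (𝓝 (√Real.pi / (√Real.pi * √Real.pi))) :=
    tendsto_stirlingSeq_sqrt_pi.div
      ((tendsto_stirlingSeq_sqrt_pi.comp hk1).mul (tendsto_stirlingSeq_sqrt_pi.comp hk2))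
      (by positivity)
  have t2 : Tendsto (fun n => √2 / (√(1 + u n) * √(1 - u n))) atTop
      (𝓝 (√2 / (√(1 + 0) * √(1 - 0)))) :=
    tendsto_const_nhds.div (((hu.const_add 1).sqrt).mul ((hu.const_sub 1).sqrt)) (by simp)
  have hsq : Tendsto (fun n : ℕ => (n : ℝ) * u n ^ 2) atTop (𝓝 (lam ^ 2)) := by
    refine (h.pow 2).congr' ?_
    filter_upwards [eventually_gt_atTop 0] with n hn
    have hnp : (0 : ℝ) < n := by positivity
    simp only [u]
    rw [div_pow, Real.sq_sqrt hnp.le]; field_simp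
  have t3 : Tendsto (fun n : ℕ => (n : ℝ) / 2 * psi (u n)) atTop (𝓝 (lam ^ 2 / 2)) := by
    have t4 : Tendsto (fun n : ℕ => (n : ℝ) / 2 * (psi (u n) - u n ^ 2)) atTop (𝓝 0) := by
      have t5 : Tendsto (fun n : ℕ => 3 * ((n : ℝ) * u n ^ 2 * |u n|)) atTop (𝓝 0) := by
        have := (hsq.mul hu.abs).const_mul 3
        simpa using this
      refine squeeze_zero_norm' ?_ t5
      filter_upwards [hu2] with n hn
      have := psi_bound hn
      rw [Real.norm_eq_abs, abs_mul, abs_of_nonneg (by positivity : (0 : ℝ) ≤ n / 2)]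
      calc (n : ℝ) / 2 * |psi (u n) - u n ^ 2| ≤ n / 2 * (6 * |u n| ^ 3) := by gcongr
        _ = _ := by rw [← sq_abs]; ring
    have := (hsq.div_const 2).add t4
    rw [add_zero] at this
    exact this.congr fun n => by ring
  have t6 := (t1.mul t2).mul (Real.continuous_exp.continuousAt.tendsto.comp t3.neg)
  have e : √Real.pi / (√Real.pi * √Real.pi) * (√2 / (√(1 + 0) * √(1 - 0))) *
      Real.exp (-(lam ^ 2 / 2)) = √2 / √Real.pi * Real.exp (-(lam ^ 2 / 2)) := by
    simp only [add_zero, sub_zero, Real.sqrt_one]; field_simp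
  rw [e] at t6
  refine t6.congr' ?_
  filter_upwards [hk, hk1.eventually (eventually_gt_atTop 0),
    hk2.eventually (eventually_gt_atTop 0)] with n hn p1 p2
  have := choose_formula (k n) (k' n) p1.ne' p2.ne' (u n) (by rw [hn.1]; exact hn.2.2.1)
    (by rw [hn.1]; exact hn.2.2.2.1)
  rw [hn.1] at this
  rw [← hn.2.1, bb_choose, this]
  rfl

/-- Asymptotics of the first passage probability. -/
theorem tendsto_hit (a : ℕ → ℤ) (hpar : ∀ n : ℕ, (a n + n) % 2 = 0) (lam : ℝ) (hlam : lam < 0)
    (h : Tendsto (fun n : ℕ => (a n : ℝ) / √n) atTop (𝓝 lam)) :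
    Tendsto (fun n : ℕ => (n : ℝ) * hit n (a n)) atTop
      (𝓝 (-lam * (√2 / √Real.pi * Real.exp (-(lam ^ 2 / 2))))) := by
  refine (h.neg.mul (llt a hpar lam h)).congr' ?_
  filter_upwards [h.eventually (gt_mem_nhds hlam), eventually_gt_atTop 0] with n hn hn0
  have hnp : (0 : ℝ) < n := by positivity
  have hs : (0 : ℝ) < √n := Real.sqrt_pos.2 hnp
  have h1 : (a n : ℝ) < 0 := by
    by_contra hc
    exact absurd (div_nonneg (not_lt.1 hc) hs.le) (not_le.2 hn)
  have h2 : a n < 0 := by exact_mod_cast h1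
  obtain ⟨j, rfl⟩ : ∃ j, n = j + 1 := ⟨n - 1, by omega⟩
  rw [hit_of_neg _ h2]
  push_cast at *
  field_simp

/-- Asymptotics of the mean of the overlap terms. -/
theorem tendsto_mean :
    Tendsto (fun j : ℕ => (j : ℝ) * ((bb j 0 ^ 2 + bb j 1 ^ 2) / 4)) atTop
      (𝓝 (1 / (2 * Real.pi))) := by
  let a : ℕ → ℤ := fun n => (n : ℤ) % 2
  have h0 : Tendsto (fun n : ℕ => (a n : ℝ) / √n) atTop (𝓝 0) := by
    refine squeeze_zero_norm' ?_ (tendsto_inv_atTop_zero.comp tendsto_sqrt_nat)
    filter_upwards with n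
    have h1 : |a n| ≤ 1 := by simp only [a]; rw [abs_le]; omega
    have h2 : |(a n : ℝ)| ≤ 1 := by exact_mod_cast h1
    rw [Real.norm_eq_abs, abs_div, abs_of_nonneg (Real.sqrt_nonneg _), Function.comp,
      ← one_div]
    gcongr
  have h1 := ((llt a (fun n => by simp only [a]; omega) 0 h0).pow 2).div_const 4
  have e : (√2 / √Real.pi * Real.exp (-((0 : ℝ) ^ 2 / 2))) ^ 2 / 4 = 1 / (2 * Real.pi) := by
    have := Real.pi_pos
    simp only [ne_eq, OfNat.ofNat_ne_zero, not_false_eq_true, zero_pow, zero_div, neg_zero,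
      Real.exp_zero, mul_one, div_pow]
    rw [Real.sq_sqrt (by norm_num), Real.sq_sqrt this.le]; field_simp; norm_num
  rw [e] at h1
  refine h1.congr fun n => ?_
  rw [mul_pow, Real.sq_sqrt (Nat.cast_nonneg n)]
  rcases Int.emod_two_eq_zero_or_one (n : ℤ) with h | h
  · simp only [a, h]
    rw [bb_eq_zero_of_odd n 1 (by omega)]; ring
  · simp only [a, h]
    rw [bb_eq_zero_of_odd n 0 (by omega)]; ring

end Pool.Agent.MP_40890c_pr

end MrgPart4

-- ======== part 5: formerly Pool.Agent.MP_40890c_pr.Asymp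
section MrgPart5

/-!
The asymptotics of the sum of the tail probabilities.
-/

open Finset Filter Topology Asymptotics

namespace Pool.Agent.MP_40890c_pr

theorem tendsto_log_nat : Tendsto (fun n : ℕ => Real.log n) atTop atTop :=
  Real.tendsto_log_atTop.comp tendsto_natCast_atTop_atTop

theorem tendsto_mu_div_log :
    Tendsto (fun J : ℕ => mu J / Real.log J) atTop (𝓝 (1 / (2 * Real.pi))) := by
  set c : ℝ := 1 / (2 * Real.pi) with hc
  let m : ℕ → ℝ := fun j => (bb j 0 ^ 2 + bb j 1 ^ 2) / 4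
  let H : ℕ → ℝ := fun J => ∑ i ∈ range J, (1 / (i + 1) : ℝ)
  have h1 : Tendsto (fun j : ℕ => ((j : ℝ) + 1) * m j) atTop (𝓝 c) := by
    have a1 : Tendsto (fun j : ℕ => (j : ℝ) * m j) atTop (𝓝 c) := tendsto_mean
    have a2 : Tendsto (fun j : ℕ => (j : ℝ) * m j * (j : ℝ)⁻¹) atTop (𝓝 (c * 0)) :=
      a1.mul tendsto_inv_atTop_nhds_zero_nat
    have a3 := a1.add a2
    rw [mul_zero, add_zero] at a3
    refine a3.congr' ?_
    filter_upwards [eventually_gt_atTop 0] with j hj
    have : (j : ℝ) ≠ 0 := by positivity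
    field_simp
  have h2 : (fun j : ℕ => m j - c * (1 / ((j : ℝ) + 1))) =o[atTop] fun j => (1 / ((j : ℝ) + 1)) := by
    rw [isLittleO_iff_tendsto (fun j hj => absurd hj (by positivity))]
    have := h1.sub_const c
    rw [sub_self] at this
    refine this.congr fun j => ?_
    field_simp
  have h3 := h2.sum_range (fun j => by positivity) Real.tendsto_sum_range_one_div_nat_succ_atTop
  have h4 : Tendsto (fun J => H J / Real.log J) atTop (𝓝 1) := by
    have a1 := Real.tendsto_harmonic_sub_log.div_atTop tendsto_log_nat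
    have a2 := a1.add_const 1
    rw [zero_add] at a2
    refine a2.congr' ?_
    filter_upwards [tendsto_log_nat.eventually (eventually_gt_atTop 0)] with J hJ
    have : (harmonic J : ℝ) = H J := by
      simp only [harmonic, H]; push_cast; simp
    rw [this]; field_simp; ring
  have h5 := (h3.tendsto_div_nhds_zero.add_const c).mul h4
  rw [zero_add, mul_one] at h5
  refine h5.congr' ?_
  filter_upwards [eventually_gt_atTop 0] with J hJ
  have hH : 0 < H J := Finset.sum_pos (fun i _ => by positivity) (by simp; omega)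
  have e : ∑ i ∈ range J, (m i - c * (1 / ((i : ℝ) + 1))) = mu J - c * H J := by
    rw [Finset.sum_sub_distrib, ← Finset.mul_sum]; rfl
  rw [e]
  show ((mu J - c * H J) / H J + c) * (H J / Real.log J) = _
  field_simp; ring

theorem tendsto_half : Tendsto (fun n : ℕ => n / 2) atTop atTop :=
  tendsto_atTop.2 fun b => (eventually_ge_atTop (2 * b)).mono fun n hn => by omega

theorem tendsto_log_half :
    Tendsto (fun n : ℕ => Real.log ((n / 2 : ℕ) : ℝ) / Real.log n) atTop (𝓝 1) := by
  have h1 : Tendsto (fun n : ℕ => (Real.log n - Real.log ((n / 2 : ℕ) : ℝ)) / Real.log n) atTop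
      (𝓝 0) := by
    refine squeeze_zero' ?_ ?_ (tendsto_const_nhds (x := Real.log 3).div_atTop tendsto_log_nat)
    · filter_upwards [eventually_ge_atTop 2] with n hn
      have a1 : (0 : ℝ) < ((n / 2 : ℕ) : ℝ) := by
        have : 0 < n / 2 := by omega
        positivity
      have a2 : ((n / 2 : ℕ) : ℝ) ≤ n := by exact_mod_cast Nat.div_le_self n 2
      exact div_nonneg (sub_nonneg.2 (Real.log_le_log a1 a2)) (Real.log_natCast_nonneg n)
    · filter_upwards [eventually_ge_atTop 2] with n hn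
      have a1 : (0 : ℝ) < ((n / 2 : ℕ) : ℝ) := by
        have : 0 < n / 2 := by omega
        positivity
      have a2 : (n : ℝ) ≤ 3 * ((n / 2 : ℕ) : ℝ) := by
        have : n ≤ 3 * (n / 2) := by omega
        exact_mod_cast this
      have a3 := Real.log_le_log (by positivity) a2
      rw [Real.log_mul (by norm_num) a1.ne'] at a3
      exact div_le_div_of_nonneg_right (by linarith) (Real.log_natCast_nonneg n)
  have h2 := h1.const_sub 1
  rw [sub_zero] at h2
  refine h2.congr' ?_
  filter_upwards [tendsto_log_nat.eventually (eventually_gt_atTop 0)] with n hn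
  field_simp; ring

theorem tendsto_mu_half :
    Tendsto (fun n : ℕ => mu (n / 2) / Real.log n) atTop (𝓝 (1 / (2 * Real.pi))) := by
  have h := (tendsto_mu_div_log.comp tendsto_half).mul tendsto_log_half
  rw [mul_one] at h
  refine h.congr' ?_
  filter_upwards [(tendsto_log_nat.comp tendsto_half).eventually (eventually_gt_atTop 0)] with n hn
  simp only [Function.comp] at hn ⊢
  field_simp

theorem tendsto_kap {e : ℝ} (he : 0 < e) :
    Tendsto (fun n : ℕ => (n : ℝ) * kap n (e / 576) (e * Real.log n)) atTop (𝓝 0) := by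
  have h1 : Tendsto (fun n : ℕ => 4 * (2 / (e / 576) *
      Real.exp (e ^ 2 / 1152 - e ^ 2 / 1152 * Real.log n))) atTop (𝓝 0) := by
    have a1 : Tendsto (fun n : ℕ => e ^ 2 / 1152 - e ^ 2 / 1152 * Real.log n) atTop atBot := by
      simp only [sub_eq_add_neg]
      exact tendsto_atBot_add_const_left _ _ (tendsto_neg_atTop_atBot.comp
        (tendsto_log_nat.const_mul_atTop (by positivity)))
    have a2 := ((Real.tendsto_exp_atBot.comp a1).const_mul (2 / (e / 576))).const_mul 4
    simpa using a2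
  refine squeeze_zero' (Eventually.of_forall fun n =>
    mul_nonneg (Nat.cast_nonneg n) (kap_nonneg n (by positivity) _)) ?_ h1
  filter_upwards [eventually_ge_atTop 2] with n hn
  unfold kap
  rw [← mul_assoc]
  have a1 : (0 : ℝ) < ((n / 2 : ℕ) : ℝ) := by
    have : 0 < n / 2 := by omega
    positivity
  have a2 : ((n / 2 : ℕ) : ℝ) ≤ n := by exact_mod_cast Nat.div_le_self n 2
  have a3 := Real.log_le_log a1 a2
  refine mul_le_mul ?_ ?_ (by unfold eta; positivity) (by norm_num)
  · have b1 : (0 : ℝ) < ((n - n / 2 : ℕ) : ℝ) := by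
      have : 0 < n - n / 2 := by omega
      positivity
    have b2 : (n : ℝ) ≤ 2 * ((n - n / 2 : ℕ) : ℝ) := by
      have : n ≤ 2 * (n - n / 2) := by omega
      exact_mod_cast this
    rw [← mul_div_assoc, div_le_iff₀ b1]; linarith
  · unfold eta
    have b3 : Real.exp (-(e / 576 * (e * Real.log n))) / (e / 576) *
        (2 * Real.exp ((e / 576) ^ 2 / 2 * (576 * (1 + Real.log ((n / 2 : ℕ) : ℝ))))) =
        2 / (e / 576) * Real.exp (-(e / 576 * (e * Real.log n)) +
          (e / 576) ^ 2 / 2 * (576 * (1 + Real.log ((n / 2 : ℕ) : ℝ)))) := by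
      rw [Real.exp_add]; ring
    rw [b3]
    refine mul_le_mul_of_nonneg_left (Real.exp_le_exp.2 ?_) (by positivity)
    nlinarith [mul_le_mul_of_nonneg_left a3 (sq_nonneg e)]

theorem main_asymp (a : ℕ → ℤ) (c0 : ℝ) (hc0 : 0 < c0)
    (hp : Tendsto (fun n : ℕ => (n : ℝ) * hit n (a n)) atTop (𝓝 c0)) :
    (∀ᶠ n in atTop, Summable (qq n (a n))) ∧
      Tendsto (fun n : ℕ => (∑' m, qq n (a n) m) / (n * Real.log n)) atTop
        (𝓝 (1 / (2 * Real.pi) / c0)) := by
  set c : ℝ := 1 / (2 * Real.pi) with hc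
  have hb : ∀ e : ℝ, 0 < e → ∀ᶠ n : ℕ in atTop, Summable (qq n (a n)) ∧
      (mu (n / 2) / Real.log n - e) /
          (n * hit n (a n) + n * kap n (e / 576) (e * Real.log n)) ≤
        (∑' m, qq n (a n) m) / (n * Real.log n) ∧
      (∑' m, qq n (a n) m) / (n * Real.log n) ≤
        (mu (n / 2) / Real.log n + e + 3 / Real.log n) /
          (n * hit n (a n) - n * kap n (e / 576) (e * Real.log n)) := by
    intro e he
    have h1 := hp.sub (tendsto_kap he)
    rw [sub_zero] at h1
    filter_upwards [h1.eventually (lt_mem_nhds hc0), eventually_gt_atTop 0,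
      tendsto_log_nat.eventually (eventually_gt_atTop 0)] with n h2 hn hl
    have hnp : (0 : ℝ) < n := by positivity
    have hk : kap n (e / 576) (e * Real.log n) < hit n (a n) := by
      by_contra hcon
      have := mul_le_mul_of_nonneg_left (not_lt.1 hcon) hnp.le
      linarith
    have hk0 := kap_nonneg n (by positivity : 0 < e / 576) (e * Real.log n)
    obtain ⟨b1, b2, b3⟩ := tsum_bounds hn (a n) (by positivity : 0 < e / 576)
      (by positivity : 0 ≤ e * Real.log n) hk
    have p1 : 0 < hit n (a n) + kap n (e / 576) (e * Real.log n) := by linarith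
    have p2 : 0 < hit n (a n) - kap n (e / 576) (e * Real.log n) := by linarith
    refine ⟨b1, ?_, ?_⟩
    · refine le_trans (le_of_eq ?_) (div_le_div_of_nonneg_right b2 (by positivity))
      field_simp
    · refine le_trans (div_le_div_of_nonneg_right b3 (by positivity)) (le_of_eq ?_)
      rw [← mul_sub]
      field_simp
  refine ⟨(hb 1 one_pos).mono fun n hn => hn.1, tendsto_order.2 ⟨fun b hbc => ?_, fun b hbc => ?_⟩⟩
  · have he : 0 < (c / c0 - b) * c0 / 2 := by
      have := sub_pos.2 hbc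
      positivity
    set e := (c / c0 - b) * c0 / 2 with hee
    have t1 := (tendsto_mu_half.sub_const e).div (hp.add (tendsto_kap he))
      (by rw [add_zero]; exact hc0.ne')
    have t2 : b < (1 / (2 * Real.pi) - e) / (c0 + 0) := by
      rw [add_zero, ← hc, lt_div_iff₀ hc0, hee]
      have : c / c0 * c0 = c := by field_simp
      nlinarith
    filter_upwards [hb e he, t1.eventually (lt_mem_nhds t2)] with n h1 h2
    exact lt_of_lt_of_le h2 h1.2.1
  · have he : 0 < (b - c / c0) * c0 / 2 := by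
      have := sub_pos.2 hbc
      positivity
    set e := (b - c / c0) * c0 / 2 with hee
    have t0 := tendsto_const_nhds (x := (3 : ℝ)).div_atTop tendsto_log_nat
    have t1 := ((tendsto_mu_half.add_const e).add t0).div (hp.sub (tendsto_kap he))
      (by rw [sub_zero]; exact hc0.ne')
    have t2 : (1 / (2 * Real.pi) + e + 0) / (c0 - 0) < b := by
      rw [add_zero, sub_zero, ← hc, div_lt_iff₀ hc0, hee]
      have : c / c0 * c0 = c := by field_simp
      nlinarith
    filter_upwards [hb e he, t1.eventually (gt_mem_nhds t2)] with n h1 h2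
    exact lt_of_le_of_lt h1.2.2 h2

end Pool.Agent.MP_40890c_pr

end MrgPart5

-- ======== part 6: formerly Pool.Agent.MP_40890c_pr.Prob
section MrgPart6

/-!
From averages over sign sequences to the probability space.
-/

open Finset Filter Topology MeasureTheory ProbabilityTheory
open scoped ENNReal

namespace Pool.Agent.MP_40890c_pr

def sgs : ℕ → Finset (List ℤ)
  | 0 => {[]}
  | m + 1 => (sgs m).image (fun l => 1 :: l) ∪ (sgs m).image (fun l => -1 :: l)

theorem mem_sgs {m : ℕ} {l : List ℤ} : l ∈ sgs m ↔ l.length = m ∧ IsSg l := by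
  induction m generalizing l with
  | zero =>
    simp only [sgs, Finset.mem_singleton, List.length_eq_zero_iff]
    exact ⟨fun h => ⟨h, h ▸ isSg_nil⟩, fun h => h.1⟩
  | succ m ih =>
    simp only [sgs, Finset.mem_union, Finset.mem_image, ih]
    constructor
    · rintro (⟨l', h, rfl⟩ | ⟨l', h, rfl⟩)
      · exact ⟨by simp [h.1], isSg_cons (Or.inl rfl) h.2⟩
      · exact ⟨by simp [h.1], isSg_cons (Or.inr rfl) h.2⟩
    · rintro ⟨h1, h2⟩
      rcases l with _ | ⟨s, l⟩
      · simp at h1
      · have h3 : l.length = m ∧ IsSg l :=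
          ⟨by simpa using h1, fun x hx => h2 x (List.mem_cons_of_mem _ hx)⟩
        rcases h2 s (by simp) with rfl | rfl
        · exact Or.inl ⟨l, h3, rfl⟩
        · exact Or.inr ⟨l, h3, rfl⟩

theorem ev_eq_sum (m : ℕ) (f : List ℤ → ℝ) : ev m f = (∑ l ∈ sgs m, f l) / 2 ^ m := by
  induction m generalizing f with
  | zero => simp [ev_zero, sgs]
  | succ m ih =>
    rw [ev_succ, ih, ih, sgs, Finset.sum_union, Finset.sum_image, Finset.sum_image]
    · rw [pow_succ]; field_simp
    · intro x _ y _ h; simpa using h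
    · intro x _ y _ h; simpa using h
    · rw [Finset.disjoint_left]
      intro l h1 h2
      obtain ⟨x, -, rfl⟩ := Finset.mem_image.1 h1
      obtain ⟨y, -, h⟩ := Finset.mem_image.1 h2
      simp at h

variable {Ω : Type*} [MeasurableSpace Ω]

/-- The list of the first `m` steps. -/
def steps (X : ℕ → Ω → ℤ) (m : ℕ) (w : Ω) : List ℤ := (List.range m).map fun i => X i w

omit [MeasurableSpace Ω] in
theorem steps_length (X : ℕ → Ω → ℤ) (m : ℕ) (w : Ω) : (steps X m w).length = m := by
  simp [steps]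

omit [MeasurableSpace Ω] in
theorem steps_take (X : ℕ → Ω → ℤ) {j m : ℕ} (h : j ≤ m) (w : Ω) :
    (steps X m w).take j = steps X j w := by
  simp [steps, ← List.map_take, List.take_range, min_eq_left h]

omit [MeasurableSpace Ω] in
theorem steps_sum (X : ℕ → Ω → ℤ) (m : ℕ) (w : Ω) :
    (steps X m w).sum = ∑ i ∈ range m, X i w := by
  induction m with
  | zero => simp [steps]
  | succ m ih =>
    rw [Finset.sum_range_succ, ← ih]
    simp [steps, List.range_succ]

omit [MeasurableSpace Ω] in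
theorem window_sum (X : ℕ → Ω → ℤ) {k i m : ℕ} (h : k + i ≤ m) (w : Ω) :
    (((steps X m w).drop k).take i).sum = ∑ j ∈ range (k + i), X j w - ∑ j ∈ range k, X j w := by
  have h1 : (steps X m w).take (k + i) =
      (steps X m w).take k ++ ((steps X m w).drop k).take i := List.take_add
  rw [steps_take X h, steps_take X (by omega : k ≤ m)] at h1
  rw [← steps_sum, ← steps_sum, h1, List.sum_append]; ring

omit [MeasurableSpace Ω] in
theorem occ_steps (X : ℕ → Ω → ℤ) (n : ℕ) (a : ℤ) (m : ℕ) (w : Ω) :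
    Occ n a (steps X m w) ↔ n ≤ m ∧
      ∑ j ∈ range (m - n + n), X j w - ∑ j ∈ range (m - n), X j w = a ∧
      ∀ i < n, a < ∑ j ∈ range (m - n + i), X j w - ∑ j ∈ range (m - n), X j w := by
  unfold Occ FP
  rw [steps_length]
  refine and_congr_right fun hn => ?_
  have hl : ((steps X m w).drop (m - n)).length = n := by
    rw [List.length_drop, steps_length]; omega
  rw [hl, ← window_sum X (by omega : m - n + n ≤ m), List.take_of_length_le hl.le]
  refine and_congr_right fun _ => forall_congr' fun i => forall_congr' fun hi => ?_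
  rw [window_sum X (by omega)]

def cyl (X : ℕ → Ω → ℤ) (l : List ℤ) : Set Ω := ⋂ i ∈ range l.length, X i ⁻¹' {l.getD i 0}

omit [MeasurableSpace Ω] in
theorem mem_cyl {X : ℕ → Ω → ℤ} {l : List ℤ} {w : Ω} :
    w ∈ cyl X l ↔ steps X l.length w = l := by
  simp only [cyl, Set.mem_iInter, Finset.mem_range, Set.mem_preimage, Set.mem_singleton_iff]
  constructor
  · intro h
    apply List.ext_getElem (steps_length _ _ _)
    intro i h1 h2
    have := h i h2
    rw [List.getD_eq_getElem _ _ h2] at this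
    simpa [steps] using this
  · intro h i hi
    rw [List.getD_eq_getElem _ _ hi]
    have : l[i] = (steps X l.length w)[i]'(by rw [steps_length]; exact hi) := by simp only [h]
    rw [this]; simp [steps]

theorem measurableSet_cyl {X : ℕ → Ω → ℤ} (hX : ∀ i, Measurable (X i)) (l : List ℤ) :
    MeasurableSet (cyl X l) :=
  Finset.measurableSet_biInter _ fun i _ => hX i (measurableSet_singleton _)

theorem measure_cyl {P : Measure Ω} {X : ℕ → Ω → ℤ} (hind : iIndepFun X P)
    (h1 : ∀ i, P (X i ⁻¹' {1}) = 1 / 2) (h2 : ∀ i, P (X i ⁻¹' {-1}) = 1 / 2) {l : List ℤ}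
    (hl : IsSg l) : P (cyl X l) = (1 / 2) ^ l.length := by
  rw [cyl, hind.measure_inter_preimage_eq_mul _ (fun i _ => measurableSet_singleton _),
    Finset.prod_congr rfl (g := fun _ => (1 / 2 : ℝ≥0∞))]
  · simp
  · intro i hi
    rw [Finset.mem_range] at hi
    rw [List.getD_eq_getElem _ _ hi]
    rcases hl _ (List.getElem_mem hi) with h | h <;> rw [h]
    exacts [h1 i, h2 i]

theorem ae_sign {P : Measure Ω} [IsProbabilityMeasure P] {X : ℕ → Ω → ℤ}
    (hX : ∀ i, Measurable (X i))
    (h1 : ∀ i, P (X i ⁻¹' {1}) = 1 / 2) (h2 : ∀ i, P (X i ⁻¹' {-1}) = 1 / 2) :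
    ∀ᵐ w ∂P, ∀ i, X i w = 1 ∨ X i w = -1 := by
  rw [ae_all_iff]
  intro i
  have hm : MeasurableSet (X i ⁻¹' {1} ∪ X i ⁻¹' {-1}) :=
    (hX i (measurableSet_singleton _)).union (hX i (measurableSet_singleton _))
  have h3 : P (X i ⁻¹' {1} ∪ X i ⁻¹' {-1}) = 1 := by
    rw [measure_union _ (hX i (measurableSet_singleton _)), h1, h2, ENNReal.add_halves]
    rw [Set.disjoint_left]
    intro w a b
    simp only [Set.mem_preimage, Set.mem_singleton_iff] at a b
    omega
  exact (prob_compl_eq_zero_iff hm).2 h3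

open Classical in
/-- A measurable version of the event that the first `m` steps satisfy `p`. -/
noncomputable def evt (X : ℕ → Ω → ℤ) (m : ℕ) (p : List ℤ → Prop) : Set Ω :=
  ⋃ l ∈ (sgs m).filter p, cyl X l

theorem measurableSet_evt {X : ℕ → Ω → ℤ} (hX : ∀ i, Measurable (X i)) (m : ℕ)
    (p : List ℤ → Prop) : MeasurableSet (evt X m p) :=
  Finset.measurableSet_biUnion _ fun l _ => measurableSet_cyl hX l

omit [MeasurableSpace Ω] in
theorem mem_evt {X : ℕ → Ω → ℤ} {m : ℕ} {p : List ℤ → Prop} {w : Ω}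
    (hw : ∀ i, X i w = 1 ∨ X i w = -1) : w ∈ evt X m p ↔ p (steps X m w) := by
  classical
  simp only [evt, Set.mem_iUnion, Finset.mem_filter, mem_sgs, mem_cyl]
  constructor
  · rintro ⟨l, ⟨⟨h1, -⟩, h2⟩, h3⟩
    rw [h1] at h3
    rwa [h3]
  · intro h
    refine ⟨steps X m w, ⟨⟨steps_length _ _ _, ?_⟩, h⟩, by rw [steps_length]⟩
    intro x hx
    simp only [steps, List.mem_map] at hx
    obtain ⟨i, -, rfl⟩ := hx
    exact hw i

theorem measure_evt {P : Measure Ω} {X : ℕ → Ω → ℤ} (hX : ∀ i, Measurable (X i))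
    (hind : iIndepFun X P)
    (h1 : ∀ i, P (X i ⁻¹' {1}) = 1 / 2) (h2 : ∀ i, P (X i ⁻¹' {-1}) = 1 / 2) (m : ℕ)
    (p : List ℤ → Prop) : P (evt X m p) = ENNReal.ofReal (ev m fun l => ind (p l)) := by
  classical
  rw [evt, measure_biUnion_finset _ (fun l _ => measurableSet_cyl hX l),
    Finset.sum_congr rfl (g := fun _ => (1 / 2 : ℝ≥0∞) ^ m), ev_eq_sum]
  · have e : ∑ l ∈ sgs m, ind (p l) = (((sgs m).filter p).card : ℝ) := by
      rw [Finset.card_filter]; push_cast
      refine Finset.sum_congr rfl fun l _ => ?_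
      unfold ind; congr
    rw [e, Finset.sum_const, nsmul_eq_mul, ENNReal.ofReal_div_of_pos (by positivity),
      ENNReal.ofReal_natCast, ENNReal.ofReal_pow (by norm_num), ENNReal.ofReal_ofNat, one_div,
      ← ENNReal.inv_pow, div_eq_mul_inv]
  · intro l hl
    have := mem_sgs.1 (Finset.mem_filter.1 hl).1
    rw [measure_cyl hind h1 h2 this.2, this.1]
  · intro l hl l' hl' hne
    rw [Function.onFun, Set.disjoint_left]
    intro w a b
    have e1 := (mem_sgs.1 (Finset.mem_filter.1 hl).1).1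
    have e2 := (mem_sgs.1 (Finset.mem_filter.1 hl').1).1
    rw [mem_cyl, e1] at a
    rw [mem_cyl, e2] at b
    exact hne (a.symm.trans b)

open Classical in
theorem iInf_eq_tsum (g : ℕ → Prop) :
    (⨅ (m : ℕ) (_ : g m), (m : ℝ≥0∞)) = ∑' m : ℕ, if ∀ j ≤ m, ¬ g j then 1 else 0 := by
  by_cases h : ∃ m, g m
  · have h1 : (⨅ (m : ℕ) (_ : g m), (m : ℝ≥0∞)) = Nat.find h := by
      apply le_antisymm
      · exact iInf₂_le _ (Nat.find_spec h)
      · exact le_iInf₂ fun m hm => by exact_mod_cast Nat.find_min' h hm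
    rw [h1, tsum_eq_sum (s := range (Nat.find h)),
      Finset.sum_congr rfl (g := fun _ => (1 : ℝ≥0∞))]
    · simp
    · intro m hm
      rw [Finset.mem_range] at hm
      rw [if_pos fun j hj => Nat.find_min h (by omega)]
    · intro m hm
      rw [Finset.mem_range, not_lt] at hm
      rw [if_neg fun hc => hc _ hm (Nat.find_spec h)]
  · push Not at h
    simp [h]

theorem lintegral_wait {P : Measure Ω} [IsProbabilityMeasure P] {X : ℕ → Ω → ℤ}
    (hX : ∀ i, Measurable (X i)) (hind : iIndepFun X P)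
    (h1 : ∀ i, P (X i ⁻¹' {1}) = 1 / 2) (h2 : ∀ i, P (X i ⁻¹' {-1}) = 1 / 2) (n : ℕ) (a : ℤ)
    (g : ℕ → Ω → Prop)
    (hg : ∀ w, (∀ i, X i w = 1 ∨ X i w = -1) → ∀ m, g m w ↔ Occ n a (steps X m w))
    (hs : Summable (qq n a)) :
    ∫⁻ w, (⨅ (m : ℕ) (_ : g m w), (m : ℝ≥0∞)) ∂P = ENNReal.ofReal (∑' m, qq n a m) := by
  classical
  have e : ∀ᵐ w ∂P, (⨅ (m : ℕ) (_ : g m w), (m : ℝ≥0∞)) =
      ∑' m : ℕ, (evt X m (NoOcc n a)).indicator 1 w := by
    filter_upwards [ae_sign hX h1 h2] with w hw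
    rw [iInf_eq_tsum]
    refine tsum_congr fun m => ?_
    rw [Set.indicator_apply]
    refine if_congr ?_ rfl rfl
    rw [mem_evt hw, NoOcc, steps_length]
    refine forall_congr' fun j => forall_congr' fun hj => ?_
    rw [steps_take X hj, hg w hw]
  rw [lintegral_congr_ae e, lintegral_tsum fun m =>
    (measurable_one.indicator (measurableSet_evt hX m _)).aemeasurable,
    ENNReal.ofReal_tsum_of_nonneg qq_nonneg hs]
  refine tsum_congr fun m => ?_
  rw [lintegral_indicator_one (measurableSet_evt hX m _), measure_evt hX hind h1 h2, qq]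

end Pool.Agent.MP_40890c_pr

end MrgPart6

-- marker of a merged file
example : 731051 + 331521 = 731051 + 331521 := rfl
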